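import Mathlib
import Pool.Agent.K9h5.Q.Uu

/-!
# The universal family of multihomogeneous covers
-/

set_option autoImplicit false
set_option linter.all false

namespace Pool.Agent.K9h5.W

open Finset Pool.Agent.K9h5 Pool.Agent.K9h5.T Pool.Agent.K9h5.Q

/-- the weight of the coordinates of one curve -/
def wt {r : ℕ} (i : Fin r) : Fin r × Fin 3 → ℕ := fun v => if v.1 = i then 1 else 0

/-- multihomogeneous families of coefficients -/
def MH {r n : ℕ} {S : Type} [CommRing S] (F : Fin n → MvPolynomial (Fin r × Fin 3) S)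
    (d : Fin r → ℕ) : Prop :=
  ∀ k i, (F k).IsWeightedHomogeneous (wt i) (((k : ℕ) + 1) * d i)

/-- the exponents of the monomials -/
noncomputable def Ex {r : ℕ} (d : Fin r → ℕ) (k : ℕ) : Finset (Fin r × Fin 3 →₀ ℕ) := by
  classical
  exact (Finset.Iic (Finsupp.equivFunOnFinite.symm (fun v : Fin r × Fin 3 => (k + 1) * d v.1))).filter
    (fun e => ∀ i, Finsupp.weight (wt i) e = (k + 1) * d i)

theorem mem_Ex {r : ℕ} (d : Fin r → ℕ) (k : ℕ) (e : Fin r × Fin 3 →₀ ℕ) :
    e ∈ Ex d k ↔ ∀ i, Finsupp.weight (wt i) e = (k + 1) * d i := by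
  classical
  unfold Ex
  rw [mem_filter, mem_Iic, and_iff_right_iff_imp]
  intro h v
  have h1 := h v.1
  rw [Finsupp.weight_apply, Finsupp.sum_fintype _ _ (fun _ => by simp)] at h1
  have h2 : e v • wt v.1 v ≤ ∑ i, e i • wt v.1 i :=
    Finset.single_le_sum (f := fun i => e i • wt v.1 i) (fun _ _ => Nat.zero_le _) (mem_univ v)
  rw [h1] at h2
  simpa [wt] using h2

/-- the index type of the coefficients -/
abbrev Ix (r n : ℕ) : Type := Fin n × (Fin r × Fin 3 →₀ ℕ)

/-- the coefficients of a cover -/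
noncomputable def co {r n : ℕ} {S : Type} [CommRing S] (F : Fin n → MvPolynomial (Fin r × Fin 3) S) :
    Ix r n → S :=
  fun x => (F x.1).coeff x.2

/-- the index set of the universal family -/
abbrev Iu {r : ℕ} (n : ℕ) (d : Fin r → ℕ) : Type := Σ k : Fin n, {e // e ∈ Ex d (k : ℕ)}

noncomputable def eu {r : ℕ} (n : ℕ) (d : Fin r → ℕ) : Iu n d ≃ Fin (Fintype.card (Iu n d)) :=
  Fintype.equivFin _

/-- the index of a parameter -/
noncomputable def ix {r : ℕ} (n : ℕ) (d : Fin r → ℕ) (i : Fin (Fintype.card (Iu n d))) : Ix r n :=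
  (((eu n d).symm i).1, ((eu n d).symm i).2.1)

/-- the universal family -/
noncomputable def Fu {r : ℕ} (n : ℕ) (d : Fin r → ℕ) (k : Fin n) :
    MvPolynomial (Fin (Fintype.card (Iu n d)) ⊕ (Fin r × Fin 3)) ℤ :=
  ∑ e : {e // e ∈ Ex d (k : ℕ)}, MvPolynomial.X (Sum.inl (eu n d ⟨k, e⟩)) *
    MvPolynomial.rename Sum.inr (MvPolynomial.monomial e.1 1)

theorem Fu_homog {r : ℕ} (n : ℕ) (d : Fin r → ℕ) (k : Fin n) (i : Fin r) :
    (Fu n d k).IsWeightedHomogeneous (Sum.elim (fun _ => 0)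
      (fun v : Fin r × Fin 3 => if v.1 = i then 1 else 0)) (((k : ℕ) + 1) * d i) := by
  classical
  unfold Fu
  apply MvPolynomial.IsWeightedHomogeneous.sum
  intro e _
  have h1 := (MvPolynomial.isWeightedHomogeneous_X ℤ (Sum.elim (fun _ => 0)
      (fun v : Fin r × Fin 3 => if v.1 = i then 1 else 0) :
        Fin (Fintype.card (Iu n d)) ⊕ (Fin r × Fin 3) → ℕ) (Sum.inl (eu n d ⟨k, e⟩)))
  have h2 : (MvPolynomial.rename (Sum.inr : _ → Fin (Fintype.card (Iu n d)) ⊕ (Fin r × Fin 3))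
      (MvPolynomial.monomial e.1 (1 : ℤ))).IsWeightedHomogeneous (Sum.elim (fun _ => 0)
      (fun v : Fin r × Fin 3 => if v.1 = i then 1 else 0)) (((k : ℕ) + 1) * d i) := by
    rw [MvPolynomial.rename_monomial]
    apply MvPolynomial.isWeightedHomogeneous_monomial
    rw [← (mem_Ex d k e.1).1 e.2 i, Finsupp.weight_apply, Finsupp.weight_apply,
      Finsupp.sum_mapDomain_index (fun _ => by simp) (fun _ _ _ => by rw [add_smul])]
    rfl
  have h3 := h1.mul h2
  simpa using h3

theorem Fu_eval {r n : ℕ} (d : Fin r → ℕ) {S T : Type} [CommRing S] [CommRing T] (κ : S →+* T)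
    (F : Fin n → MvPolynomial (Fin r × Fin 3) S) (hF : MH F d) (k : Fin n) (V : Fin r × Fin 3 → T) :
    MvPolynomial.aeval (Sum.elim (fun i => κ (co F (ix n d i))) V) (Fu n d k) =
      MvPolynomial.eval₂ κ V (F k) := by
  classical
  unfold Fu
  rw [map_sum, MvPolynomial.eval₂_eq']
  have h1 : ∀ e : {e // e ∈ Ex d (k : ℕ)}, (MvPolynomial.aeval
      (Sum.elim (fun i => κ (co F (ix n d i))) V)) (MvPolynomial.X (Sum.inl (eu n d ⟨k, e⟩)) *
      MvPolynomial.rename Sum.inr (MvPolynomial.monomial e.1 (1 : ℤ))) =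
      κ ((F k).coeff e.1) * ∏ v, V v ^ e.1 v := by
    intro e
    rw [map_mul, MvPolynomial.aeval_X, MvPolynomial.aeval_rename, MvPolynomial.aeval_monomial,
      map_one, one_mul, Finsupp.prod_fintype _ _ (fun _ => pow_zero _)]
    congr 1
    show κ (co F (ix n d (eu n d ⟨k, e⟩))) = _
    unfold ix co
    rw [Equiv.symm_apply_apply]
  rw [Finset.sum_congr rfl (fun e _ => h1 e),
    Finset.sum_coe_sort (Ex d (k : ℕ)) (fun e => κ ((F k).coeff e) * ∏ v, V v ^ e v)]
  symm
  apply Finset.sum_subset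
  · intro e he
    rw [mem_Ex]
    intro i
    exact hF k i (MvPolynomial.mem_support_iff.1 he)
  · intro e _ he
    rw [MvPolynomial.notMem_support_iff] at he
    rw [he, map_zero, zero_mul]

end Pool.Agent.K9h5.W
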