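import Mathlib
import Pool.Agent.K9h5.Q.MainQ
import Pool.Agent.K9h5.W.Univ

/-!
# The closed set in the space of all covers
-/

set_option autoImplicit false
set_option linter.all false

namespace Pool.Agent.K9h5.W

open Pool.Agent.H901R3.MS WeierstrassCurve Finset Pool.Agent.K9h5 Pool.Agent.K9h5.T
  Pool.Agent.K9h5.U Pool.Agent.K9h5.Q Pool.Agent.K9h5.N Height

/-- the exceptional tuples of a cover -/
def ExcG (K : Type) [Field K] [NumberField K] [DecidableEq K] {r n : ℕ} (a b : Fin r → ℤ)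
    (G : Fin n → MvPolynomial (Fin r × Fin 3) K) (B : ℝ) :
    Set (∀ i, Pt (a i : K) (b i : K)) :=
  {P | (∀ i, hK (P i) ≤ B) ∧
    (Nat.card (pol (fun k => MvPolynomial.eval (fun v => rep (P v.1) v.2) (G k))).Gal ≠
        Nat.factorial n ∨
      ∃ x : K, (pol (fun k => MvPolynomial.eval (fun v => rep (P v.1) v.2) (G k))).IsRoot x)}

/-- symmetric monodromy and odd branching in the direction of the `j`-th factor -/
def SB {r n : ℕ} (a b : Fin r → ℤ) (F : Fin n → MvPolynomial (Fin r × Fin 3) ℂ) (j : Fin r) : Prop :=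
  ∃ (V : Fin r → Fin 3 → ℂ) (W : Fin 3 → PowerSeries ℂ) (m : ℕ),
    (∀ i, i ≠ j → V i 2 = 1 ∧ V i 1 ^ 2 = V i 0 ^ 3 + a i * V i 0 + b i) ∧
    Full1 (a j : ℂ) (b j : ℂ) (fun k => MvPolynomial.eval₂ (qc ℂ (a j : ℂ) (b j : ℂ))
      (fun v => gen j (a j : ℂ) (b j : ℂ) V v.1 v.2) (F k)) ∧
    W ≠ 0 ∧ W 1 ^ 2 * W 2 = W 0 ^ 3 + (a j : PowerSeries ℂ) * W 0 * W 2 ^ 2 +
      (b j : PowerSeries ℂ) * W 2 ^ 3 ∧
    (DFm (fun k => MvPolynomial.eval₂ PowerSeries.C (fun v : Fin r × Fin 3 =>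
      if v.1 = j then W v.2 else PowerSeries.C (V v.1 v.2)) (F k))).order = m ∧ Odd m

/-- the property of a polynomial in the coefficients -/
def Sav {r : ℕ} (n : ℕ) (a b : Fin r → ℤ) (d : Fin r → ℕ) (j : Fin r) (φ : MvPolynomial (Ix r n) ℤ) :
    Prop :=
  ∀ (K : Type) [Field K] [NumberField K] [DecidableEq K],
        (∀ mm : ℕ, (∀ i, mm ≤ Module.finrank ℤ (Pt (a i : K) (b i : K))) →
          ∃ C : ℝ, 0 < C ∧ ∀ B : ℝ, 1 ≤ B →
            (ABg (fun i => hK (a := (a i : K)) (b := (b i : K))) B).Finite ∧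
            ∀ G : Fin n → MvPolynomial (Fin r × Fin 3) K, MH G d →
              (∀ x, logHeight₁ (co G x) ≤ B ^ (3 / 10 * (mm : ℝ))) →
              MvPolynomial.aeval (co G) φ ≠ 0 → ((ExcG K a b G B).ncard : ℝ) ≤
              C * (B ^ ((2 - 98 / 1000 * (mm : ℝ)) / 2) *
                ((ABg (fun i => hK (a := (a i : K)) (b := (b i : K))) B).ncard : ℝ))) ∧
        ((∀ i, 1 ≤ Module.finrank ℤ (Pt (a i : K) (b i : K))) →
          3 ≤ Module.finrank ℤ (Pt (a j : K) (b j : K)) →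
          ∃ C : ℝ, 0 < C ∧ ∀ B : ℝ, 1 ≤ B →
            (ABg (fun i => hK (a := (a i : K)) (b := (b i : K))) B).Finite ∧
            ∀ G : Fin n → MvPolynomial (Fin r × Fin 3) K, MH G d →
              (∀ x, logHeight₁ (co G x) ≤ B ^ (33 / 200 : ℝ)) →
              MvPolynomial.aeval (co G) φ ≠ 0 → ((ExcG K a b G B).ncard : ℝ) ≤
              C * (B ^ (-(1 / 300) : ℝ) *
                ((ABg (fun i => hK (a := (a i : K)) (b := (b i : K))) B).ncard : ℝ)))

theorem gen_UU {r s : ℕ} {S : Type} [CommRing S] (j : Fin r) (a b : S) (t : Fin s → S)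
    (V : Fin r → Fin 3 → S) :
    gen (Fin.castAdd s j) a b (UU t V) = UU (fun i => qc S a b (t i)) (gen j a b V) := by
  funext i l
  refine Fin.addCases (fun i => ?_) (fun i => ?_) i
  · rw [UU_cast]
    unfold gen
    rw [UU_cast]
    by_cases h : i = j
    · subst h
      rw [if_pos rfl, if_pos rfl]
    · rw [if_neg h, if_neg (fun h' => h (Fin.castAdd_injective r s h'))]
  · rw [UU_nat]
    unfold gen
    rw [if_neg (nat_ne_cast i j), UU_nat]
    fin_cases l
    · rfl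
    · exact map_zero _
    · exact map_zero _

theorem evF_Fu {r n : ℕ} (d : Fin r → ℕ) {S T : Type} [CommRing S] [CommRing T] (κ : S →+* T)
    (F : Fin n → MvPolynomial (Fin r × Fin 3) S) (hF : MH F d) (k : Fin n) (V : Fin r → Fin 3 → T) :
    evF (MvPolynomial.rename (rho r _) (Fu n d k)) (UU (fun i => κ (co F (ix n d i))) V) =
      MvPolynomial.eval₂ κ (fun v => V v.1 v.2) (F k) := by
  rw [evF_rename, Fu_eval d κ F hF k]

/-- the closed set for one complex cover -/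
theorem univ_one {r n : ℕ} (hn : 2 ≤ n) (a b : Fin r → ℤ) (hD : ∀ i, Disc (a i : ℚ) (b i : ℚ))
    (d : Fin r → ℕ) (j : Fin r) (F : Fin n → MvPolynomial (Fin r × Fin 3) ℂ) (hF : MH F d)
    (hSB : SB a b F j) : ∃ bb : MvPolynomial (Fin (Fintype.card (Iu n d))) ℤ,
      MvPolynomial.aeval (fun i => co F (ix n d i)) bb ≠ 0 ∧
      Sav n a b d j (MvPolynomial.rename (ix n d) bb) := by
  classical
  obtain ⟨V, W, m, haff, hfull, hW0, hWE, hord, hm⟩ := hSB
  obtain ⟨bb, hbb, hmain⟩ := main_fam (s := Fintype.card (Iu n d)) hn a b hD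
    (fun k => MvPolynomial.rename (rho r _) (Fu n d k)) j d
    (fun k i => rename_homog i (Fu n d k) (Fu_homog n d k i)) (fun i => co F (ix n d i)) V W m haff
    hW0 hWE (by
      rw [evF_DFm, ← hord]
      congr 2
      funext k
      rw [evF_Fu d PowerSeries.C F hF k]) hm (by
      convert hfull using 2 with k
      rw [gen_UU, evF_Fu d (qc ℂ (a j : ℂ) (b j : ℂ)) F hF k])
  refine ⟨bb, hbb, ?_⟩
  intro K _ _ _
  obtain ⟨h1, h2⟩ := hmain K
  have hExc : ∀ (G : Fin n → MvPolynomial (Fin r × Fin 3) K) (hG : MH G d) (B : ℝ),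
      ExcG K a b G B = Exc K a b (fun k => MvPolynomial.rename (rho r _) (Fu n d k))
        (fun i => co G (ix n d i)) B := by
    intro G hG B
    have h3 : ∀ (P : ∀ i, Pt (a i : K) (b i : K)) (k : Fin n),
        evF (MvPolynomial.rename (rho r _) (Fu n d k))
          (UU (fun i => co G (ix n d i)) (fun i => rep (P i))) =
        MvPolynomial.eval (fun v => rep (P v.1) v.2) (G k) := by
      intro P k
      exact evF_Fu d (RingHom.id K) G hG k (fun i => rep (P i))
    ext P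
    unfold ExcG Exc
    rw [Set.mem_setOf_eq, Set.mem_setOf_eq]
    simp only [h3]
  have haev : ∀ G : Fin n → MvPolynomial (Fin r × Fin 3) K,
      MvPolynomial.aeval (co G) (MvPolynomial.rename (ix n d) bb) =
        MvPolynomial.aeval (fun i => co G (ix n d i)) bb := by
    intro G
    rw [MvPolynomial.aeval_rename]
    rfl
  constructor
  · intro mm hmm
    obtain ⟨C, hC, h4⟩ := h1 mm hmm
    refine ⟨C, hC, fun B hB => ⟨(h4 B hB).1, fun G hG hh hφ => ?_⟩⟩
    rw [hExc G hG B]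
    exact (h4 B hB).2 _ ⟨fun i => hh _, by rw [← haev]; exact hφ⟩
  · intro hr1 hr3
    obtain ⟨C, hC, h4⟩ := h2 hr1 hr3
    refine ⟨C, hC, fun B hB => ⟨(h4 B hB).1, fun G hG hh hφ => ?_⟩⟩
    rw [hExc G hG B]
    exact (h4 B hB).2 _ ⟨fun i => hh _, by rw [← haev]; exact hφ⟩

/-- **The closed set.** -/
theorem univ_fam {r n : ℕ} (hn : 2 ≤ n) (a b : Fin r → ℤ) (hD : ∀ i, Disc (a i : ℚ) (b i : ℚ))
    (d : Fin r → ℕ) (j : Fin r) : ∃ Z : Finset (MvPolynomial (Ix r n) ℤ),
      (∀ F : Fin n → MvPolynomial (Fin r × Fin 3) ℂ, MH F d → SB a b F j →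
        ∃ φ ∈ Z, MvPolynomial.aeval (co F) φ ≠ 0) ∧
      ∀ φ ∈ Z, Sav n a b d j φ := by
  classical
  set A : Set (MvPolynomial (Fin (Fintype.card (Iu n d))) ℤ) :=
    {bb | Sav n a b d j (MvPolynomial.rename (ix n d) bb)} with hA
  have hfg : (Ideal.span A).FG := IsNoetherian.noetherian _
  obtain ⟨Z₀, hZA, hZ⟩ := (Submodule.fg_span_iff_fg_span_finset_subset A).1 hfg
  refine ⟨Z₀.image (MvPolynomial.rename (ix n d)), ?_, ?_⟩
  · intro F hF hSB
    obtain ⟨bb, hbb, hS⟩ := univ_one hn a b hD d j F hF hSB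
    by_contra hcon
    push Not at hcon
    have h1 : bb ∈ Ideal.span (Z₀ : Set (MvPolynomial (Fin (Fintype.card (Iu n d))) ℤ)) := by
      have h2 : bb ∈ Ideal.span A := Ideal.subset_span hS
      have h3 : Ideal.span A = Ideal.span (Z₀ : Set _) := hZ
      rw [← h3]
      exact h2
    have h4 : Ideal.span (Z₀ : Set (MvPolynomial (Fin (Fintype.card (Iu n d))) ℤ)) ≤
        RingHom.ker (MvPolynomial.aeval (R := ℤ) (fun i => co F (ix n d i))) := by
      rw [Ideal.span_le]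
      intro φ hφ
      rw [SetLike.mem_coe, RingHom.mem_ker]
      have h5 := hcon _ (mem_image_of_mem (MvPolynomial.rename (ix n d)) hφ)
      rw [MvPolynomial.aeval_rename] at h5
      exact h5
    exact hbb (h4 h1)
  · intro φ hφ
    obtain ⟨ψ, hψ, rfl⟩ := mem_image.1 hφ
    exact hZA hψ

end Pool.Agent.K9h5.W
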