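import Mathlib
import Pool.Agent.K9h5.W.MainW

/-!
# The universal hypersurface in a bundle of projective lines
-/

set_option autoImplicit false
set_option linter.all false

namespace Pool.Agent.K9h5.W

open Pool.Agent.H901R3.MS WeierstrassCurve Finset Pool.Agent.K9h5 Pool.Agent.K9h5.T
  Pool.Agent.K9h5.U Pool.Agent.K9h5.Q Pool.Agent.K9h5.N Height

/-- hypersurfaces: the `k`-th coefficient is multihomogeneous of degrees `d_i + k c_i` -/
def MHP {r n : ℕ} {S : Type} [CommRing S] (G : Fin (n + 1) → MvPolynomial (Fin r × Fin 3) S)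
    (c d : Fin r → ℕ) : Prop :=
  ∀ k i, (G k).IsWeightedHomogeneous (wt i) (d i + (k : ℕ) * c i)

/-- the coefficients of the monic polynomial -/
noncomputable def mon {r n : ℕ} {S : Type} [CommRing S]
    (G : Fin (n + 1) → MvPolynomial (Fin r × Fin 3) S) (k : Fin n) :
    MvPolynomial (Fin r × Fin 3) S := G 0 ^ (k : ℕ) * G k.succ

/-- the degrees -/
def Dg {r : ℕ} (c d : Fin r → ℕ) (k : ℕ) : Fin r → ℕ := fun i => d i + k * c i

theorem mem_ExD {r : ℕ} (D : Fin r → ℕ) (e : Fin r × Fin 3 →₀ ℕ) :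
    e ∈ Ex D 0 ↔ ∀ i, Finsupp.weight (wt i) e = D i := by
  rw [mem_Ex]
  simp

/-- the index type of the coefficients -/
abbrev IxP (r n : ℕ) : Type := Fin (n + 1) × (Fin r × Fin 3 →₀ ℕ)

/-- the coefficients -/
noncomputable def coP {r n : ℕ} {S : Type} [CommRing S]
    (G : Fin (n + 1) → MvPolynomial (Fin r × Fin 3) S) : IxP r n → S :=
  fun x => (G x.1).coeff x.2

/-- the index set of the universal family -/
abbrev IuP {r : ℕ} (n : ℕ) (c d : Fin r → ℕ) : Type :=
  Σ k : Fin (n + 1), {e // e ∈ Ex (Dg c d (k : ℕ)) 0}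

noncomputable def euP {r : ℕ} (n : ℕ) (c d : Fin r → ℕ) :
    IuP n c d ≃ Fin (Fintype.card (IuP n c d)) :=
  Fintype.equivFin _

/-- the index of a parameter -/
noncomputable def ixP {r : ℕ} (n : ℕ) (c d : Fin r → ℕ) (i : Fin (Fintype.card (IuP n c d))) :
    IxP r n :=
  (((euP n c d).symm i).1, ((euP n c d).symm i).2.1)

/-- the universal forms -/
noncomputable def GuP {r : ℕ} (n : ℕ) (c d : Fin r → ℕ) (k : Fin (n + 1)) :
    MvPolynomial (Fin (Fintype.card (IuP n c d)) ⊕ (Fin r × Fin 3)) ℤ :=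
  ∑ e : {e // e ∈ Ex (Dg c d (k : ℕ)) 0}, MvPolynomial.X (Sum.inl (euP n c d ⟨k, e⟩)) *
    MvPolynomial.rename Sum.inr (MvPolynomial.monomial e.1 1)

theorem GuP_homog {r : ℕ} (n : ℕ) (c d : Fin r → ℕ) (k : Fin (n + 1)) (i : Fin r) :
    (GuP n c d k).IsWeightedHomogeneous (Sum.elim (fun _ => 0)
      (fun v : Fin r × Fin 3 => if v.1 = i then 1 else 0)) (d i + (k : ℕ) * c i) := by
  classical
  unfold GuP
  apply MvPolynomial.IsWeightedHomogeneous.sum
  intro e _
  have h1 := (MvPolynomial.isWeightedHomogeneous_X ℤ (Sum.elim (fun _ => 0)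
      (fun v : Fin r × Fin 3 => if v.1 = i then 1 else 0) :
        Fin (Fintype.card (IuP n c d)) ⊕ (Fin r × Fin 3) → ℕ) (Sum.inl (euP n c d ⟨k, e⟩)))
  have h2 : (MvPolynomial.rename (Sum.inr : _ → Fin (Fintype.card (IuP n c d)) ⊕ (Fin r × Fin 3))
      (MvPolynomial.monomial e.1 (1 : ℤ))).IsWeightedHomogeneous (Sum.elim (fun _ => 0)
      (fun v : Fin r × Fin 3 => if v.1 = i then 1 else 0)) (d i + (k : ℕ) * c i) := by
    rw [MvPolynomial.rename_monomial]
    apply MvPolynomial.isWeightedHomogeneous_monomial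
    have h5 : Finsupp.weight (wt i) e.1 = d i + (k : ℕ) * c i := (mem_ExD _ e.1).1 e.2 i
    rw [← h5, Finsupp.weight_apply, Finsupp.weight_apply,
      Finsupp.sum_mapDomain_index (fun _ => by simp) (fun _ _ _ => by rw [add_smul])]
    rfl
  have h3 := h1.mul h2
  simpa using h3

theorem GuP_eval {r n : ℕ} (c d : Fin r → ℕ) {S T : Type} [CommRing S] [CommRing T] (κ : S →+* T)
    (G : Fin (n + 1) → MvPolynomial (Fin r × Fin 3) S) (hG : MHP G c d) (k : Fin (n + 1))
    (V : Fin r × Fin 3 → T) :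
    MvPolynomial.aeval (Sum.elim (fun i => κ (coP G (ixP n c d i))) V) (GuP n c d k) =
      MvPolynomial.eval₂ κ V (G k) := by
  classical
  unfold GuP
  rw [map_sum, MvPolynomial.eval₂_eq']
  have h1 : ∀ e : {e // e ∈ Ex (Dg c d (k : ℕ)) 0}, (MvPolynomial.aeval
      (Sum.elim (fun i => κ (coP G (ixP n c d i))) V)) (MvPolynomial.X (Sum.inl (euP n c d ⟨k, e⟩)) *
      MvPolynomial.rename Sum.inr (MvPolynomial.monomial e.1 (1 : ℤ))) =
      κ ((G k).coeff e.1) * ∏ v, V v ^ e.1 v := by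
    intro e
    rw [map_mul, MvPolynomial.aeval_X, MvPolynomial.aeval_rename, MvPolynomial.aeval_monomial,
      map_one, one_mul, Finsupp.prod_fintype _ _ (fun _ => pow_zero _)]
    congr 1
    show κ (coP G (ixP n c d (euP n c d ⟨k, e⟩))) = _
    unfold ixP coP
    rw [Equiv.symm_apply_apply]
  rw [Finset.sum_congr rfl (fun e _ => h1 e),
    Finset.sum_coe_sort (Ex (Dg c d (k : ℕ)) 0) (fun e => κ ((G k).coeff e) * ∏ v, V v ^ e v)]
  symm
  apply Finset.sum_subset
  · intro e he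
    rw [mem_ExD]
    intro i
    exact hG k i (MvPolynomial.mem_support_iff.1 he)
  · intro e _ he
    rw [MvPolynomial.notMem_support_iff] at he
    rw [he, map_zero, zero_mul]

/-- the universal monic polynomial -/
noncomputable def FuP {r : ℕ} (n : ℕ) (c d : Fin r → ℕ) (k : Fin n) :
    MvPolynomial (Fin (Fintype.card (IuP n c d)) ⊕ (Fin r × Fin 3)) ℤ :=
  GuP n c d 0 ^ (k : ℕ) * GuP n c d k.succ

theorem FuP_homog {r : ℕ} (n : ℕ) (c d : Fin r → ℕ) (k : Fin n) (i : Fin r) :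
    (FuP n c d k).IsWeightedHomogeneous (Sum.elim (fun _ => 0)
      (fun v : Fin r × Fin 3 => if v.1 = i then 1 else 0)) (((k : ℕ) + 1) * (c i + d i)) := by
  have h1 := ((GuP_homog n c d 0 i).pow (k : ℕ)).mul (GuP_homog n c d k.succ i)
  have h2 : ((k : ℕ) + 1) * (c i + d i) = (k : ℕ) • (d i + ((0 : Fin (n + 1)) : ℕ) * c i) +
      (d i + ((k.succ : Fin (n + 1)) : ℕ) * c i) := by
    rw [smul_eq_mul, Fin.val_zero, Fin.val_succ]
    ring
  rw [h2]
  exact h1

theorem FuP_eval {r n : ℕ} (c d : Fin r → ℕ) {S T : Type} [CommRing S] [CommRing T] (κ : S →+* T)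
    (G : Fin (n + 1) → MvPolynomial (Fin r × Fin 3) S) (hG : MHP G c d) (k : Fin n)
    (V : Fin r × Fin 3 → T) :
    MvPolynomial.aeval (Sum.elim (fun i => κ (coP G (ixP n c d i))) V) (FuP n c d k) =
      MvPolynomial.eval₂ κ V (mon G k) := by
  unfold FuP mon
  rw [map_mul, map_pow, GuP_eval c d κ G hG, GuP_eval c d κ G hG, MvPolynomial.eval₂_mul,
    MvPolynomial.eval₂_pow]

theorem evF_FuP {r n : ℕ} (c d : Fin r → ℕ) {S T : Type} [CommRing S] [CommRing T] (κ : S →+* T)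
    (G : Fin (n + 1) → MvPolynomial (Fin r × Fin 3) S) (hG : MHP G c d) (k : Fin n)
    (V : Fin r → Fin 3 → T) :
    evF (MvPolynomial.rename (rho r _) (FuP n c d k)) (UU (fun i => κ (coP G (ixP n c d i))) V) =
      MvPolynomial.eval₂ κ (fun v => V v.1 v.2) (mon G k) := by
  rw [evF_rename, FuP_eval c d κ G hG k]

/-- the property of a polynomial in the coefficients -/
def SavP {r : ℕ} (n : ℕ) (a b : Fin r → ℤ) (c d : Fin r → ℕ) (j : Fin r)
    (φ : MvPolynomial (IxP r n) ℤ) : Prop :=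
  ∀ (K : Type) [Field K] [NumberField K] [DecidableEq K],
        (∀ mm : ℕ, (∀ i, mm ≤ Module.finrank ℤ (Pt (a i : K) (b i : K))) →
          ∃ C : ℝ, 0 < C ∧ ∀ B : ℝ, 1 ≤ B →
            (ABg (fun i => hK (a := (a i : K)) (b := (b i : K))) B).Finite ∧
            ∀ G : Fin (n + 1) → MvPolynomial (Fin r × Fin 3) K, MHP G c d →
              (∀ x, logHeight₁ (coP G x) ≤ B ^ (3 / 10 * (mm : ℝ))) →
              MvPolynomial.aeval (coP G) φ ≠ 0 → ((ExcG K a b (mon G) B).ncard : ℝ) ≤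
              C * (B ^ ((2 - 98 / 1000 * (mm : ℝ)) / 2) *
                ((ABg (fun i => hK (a := (a i : K)) (b := (b i : K))) B).ncard : ℝ))) ∧
        ((∀ i, 1 ≤ Module.finrank ℤ (Pt (a i : K) (b i : K))) →
          3 ≤ Module.finrank ℤ (Pt (a j : K) (b j : K)) →
          ∃ C : ℝ, 0 < C ∧ ∀ B : ℝ, 1 ≤ B →
            (ABg (fun i => hK (a := (a i : K)) (b := (b i : K))) B).Finite ∧
            ∀ G : Fin (n + 1) → MvPolynomial (Fin r × Fin 3) K, MHP G c d →
              (∀ x, logHeight₁ (coP G x) ≤ B ^ (33 / 200 : ℝ)) →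
              MvPolynomial.aeval (coP G) φ ≠ 0 → ((ExcG K a b (mon G) B).ncard : ℝ) ≤
              C * (B ^ (-(1 / 300) : ℝ) *
                ((ABg (fun i => hK (a := (a i : K)) (b := (b i : K))) B).ncard : ℝ)))

/-- the closed set for one complex hypersurface -/
theorem univP_one {r n : ℕ} (hn : 2 ≤ n) (a b : Fin r → ℤ) (hD : ∀ i, Disc (a i : ℚ) (b i : ℚ))
    (c d : Fin r → ℕ) (j : Fin r) (G : Fin (n + 1) → MvPolynomial (Fin r × Fin 3) ℂ)
    (hG : MHP G c d) (hSB : SB a b (mon G) j) :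
    ∃ bb : MvPolynomial (Fin (Fintype.card (IuP n c d))) ℤ,
      MvPolynomial.aeval (fun i => coP G (ixP n c d i)) bb ≠ 0 ∧
      SavP n a b c d j (MvPolynomial.rename (ixP n c d) bb) := by
  classical
  obtain ⟨V, W, m, haff, hfull, hW0, hWE, hord, hm⟩ := hSB
  obtain ⟨bb, hbb, hmain⟩ := main_fam (s := Fintype.card (IuP n c d)) hn a b hD
    (fun k => MvPolynomial.rename (rho r _) (FuP n c d k)) j (fun i => c i + d i)
    (fun k i => rename_homog i (FuP n c d k) (FuP_homog n c d k i))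
    (fun i => coP G (ixP n c d i)) V W m haff
    hW0 hWE (by
      rw [evF_DFm, ← hord]
      congr 2
      funext k
      rw [evF_FuP c d PowerSeries.C G hG k]) hm (by
      convert hfull using 2 with k
      rw [gen_UU, evF_FuP c d (qc ℂ (a j : ℂ) (b j : ℂ)) G hG k])
  refine ⟨bb, hbb, ?_⟩
  intro K _ _ _
  obtain ⟨h1, h2⟩ := hmain K
  have hExc : ∀ (G : Fin (n + 1) → MvPolynomial (Fin r × Fin 3) K) (hG : MHP G c d) (B : ℝ),
      ExcG K a b (mon G) B = Exc K a b (fun k => MvPolynomial.rename (rho r _) (FuP n c d k))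
        (fun i => coP G (ixP n c d i)) B := by
    intro G hG B
    have h3 : ∀ (P : ∀ i, Pt (a i : K) (b i : K)) (k : Fin n),
        evF (MvPolynomial.rename (rho r _) (FuP n c d k))
          (UU (fun i => coP G (ixP n c d i)) (fun i => rep (P i))) =
        MvPolynomial.eval (fun v => rep (P v.1) v.2) (mon G k) := by
      intro P k
      exact evF_FuP c d (RingHom.id K) G hG k (fun i => rep (P i))
    ext P
    unfold ExcG Exc
    rw [Set.mem_setOf_eq, Set.mem_setOf_eq]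
    simp only [h3]
  have haev : ∀ G : Fin (n + 1) → MvPolynomial (Fin r × Fin 3) K,
      MvPolynomial.aeval (coP G) (MvPolynomial.rename (ixP n c d) bb) =
        MvPolynomial.aeval (fun i => coP G (ixP n c d i)) bb := by
    intro G
    rw [MvPolynomial.aeval_rename]
    rfl
  constructor
  · intro mm hmm
    obtain ⟨C, hC, h4⟩ := h1 mm hmm
    refine ⟨C, hC, fun B hB => ⟨(h4 B hB).1, fun G hG hh hφ => ?_⟩⟩
    rw [hExc G hG B]
    exact (h4 B hB).2 _ ⟨fun i => hh _, by rw [← haev]; exact hφ⟩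
  · intro hr1 hr3
    obtain ⟨C, hC, h4⟩ := h2 hr1 hr3
    refine ⟨C, hC, fun B hB => ⟨(h4 B hB).1, fun G hG hh hφ => ?_⟩⟩
    rw [hExc G hG B]
    exact (h4 B hB).2 _ ⟨fun i => hh _, by rw [← haev]; exact hφ⟩

/-- **The closed set.** -/
theorem univP_fam {r n : ℕ} (hn : 2 ≤ n) (a b : Fin r → ℤ) (hD : ∀ i, Disc (a i : ℚ) (b i : ℚ))
    (c d : Fin r → ℕ) (j : Fin r) : ∃ Z : Finset (MvPolynomial (IxP r n) ℤ),
      (∀ G : Fin (n + 1) → MvPolynomial (Fin r × Fin 3) ℂ, MHP G c d → SB a b (mon G) j →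
        ∃ φ ∈ Z, MvPolynomial.aeval (coP G) φ ≠ 0) ∧
      ∀ φ ∈ Z, SavP n a b c d j φ := by
  classical
  set A : Set (MvPolynomial (Fin (Fintype.card (IuP n c d))) ℤ) :=
    {bb | SavP n a b c d j (MvPolynomial.rename (ixP n c d) bb)} with hA
  have hfg : (Ideal.span A).FG := IsNoetherian.noetherian _
  obtain ⟨Z₀, hZA, hZ⟩ := (Submodule.fg_span_iff_fg_span_finset_subset A).1 hfg
  refine ⟨Z₀.image (MvPolynomial.rename (ixP n c d)), ?_, ?_⟩
  · intro G hG hSB
    obtain ⟨bb, hbb, hS⟩ := univP_one hn a b hD c d j G hG hSB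
    by_contra hcon
    push Not at hcon
    have h1 : bb ∈ Ideal.span (Z₀ : Set (MvPolynomial (Fin (Fintype.card (IuP n c d))) ℤ)) := by
      have h2 : bb ∈ Ideal.span A := Ideal.subset_span hS
      have h3 : Ideal.span A = Ideal.span (Z₀ : Set _) := hZ
      rw [← h3]
      exact h2
    have h4 : Ideal.span (Z₀ : Set (MvPolynomial (Fin (Fintype.card (IuP n c d))) ℤ)) ≤
        RingHom.ker (MvPolynomial.aeval (R := ℤ) (fun i => coP G (ixP n c d i))) := by
      rw [Ideal.span_le]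
      intro φ hφ
      rw [SetLike.mem_coe, RingHom.mem_ker]
      have h5 := hcon _ (mem_image_of_mem (MvPolynomial.rename (ixP n c d)) hφ)
      rw [MvPolynomial.aeval_rename] at h5
      exact h5
    exact hbb (h4 h1)
  · intro φ hφ
    obtain ⟨ψ, hψ, rfl⟩ := mem_image.1 hφ
    exact hZA hψ

end Pool.Agent.K9h5.W
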