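import Mathlib
import Pool.Agent.K9h5.T.NF

/-!
# The symmetric group from three local facts
-/

set_option autoImplicit false
set_option linter.all false

namespace Pool.Agent.K9h5.W

open Polynomial Finset Equiv Pool.Agent.K9h5 Pool.Agent.K9h5.T

/-- a doubly transitive group with a transposition is the symmetric group -/
theorem top_of_local {n : ℕ} (H : Subgroup (Equiv.Perm (Fin n)))
    (htr : ∀ i j, ∃ π ∈ H, π i = j) (i₀ : Fin n)
    (h2 : ∀ i j, i ≠ i₀ → j ≠ i₀ → ∃ π ∈ H, π i₀ = i₀ ∧ π i = j)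
    (a b : Fin n) (hab : a ≠ b) (hs : Equiv.swap a b ∈ H) : H = ⊤ := by
  classical
  have h3 : ∀ c d : Fin n, c ≠ d → Equiv.swap c d ∈ H := by
    intro c d hcd
    obtain ⟨g, hg, hg1⟩ := htr a i₀
    obtain ⟨g', hg', hg1'⟩ := htr c i₀
    have hgb : g b ≠ i₀ := fun h => hab (g.injective (hg1.trans h.symm))
    have hgd : g' d ≠ i₀ := fun h => hcd (g'.injective (hg1'.trans h.symm))
    obtain ⟨h, hh, hh0, hh1⟩ := h2 (g b) (g' d) hgb hgd
    have hmem : g'⁻¹ * h * g ∈ H := H.mul_mem (H.mul_mem (H.inv_mem hg') hh) hg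
    have ea : (g'⁻¹ * h * g) a = c := by
      rw [Perm.mul_apply, Perm.mul_apply, hg1, hh0, ← hg1', Perm.inv_def, Equiv.symm_apply_apply]
    have eb : (g'⁻¹ * h * g) b = d := by
      rw [Perm.mul_apply, Perm.mul_apply, hh1, Perm.inv_def, Equiv.symm_apply_apply]
    have h4 : Equiv.swap c d = (g'⁻¹ * h * g) * Equiv.swap a b * (g'⁻¹ * h * g)⁻¹ := by
      rw [← ea, ← eb, ← Equiv.swap_apply_apply]
    rw [h4]
    exact H.mul_mem (H.mul_mem hmem hs) (H.inv_mem hmem)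
  rw [eq_top_iff, ← Equiv.Perm.closure_isSwap, Subgroup.closure_le]
  rintro σ ⟨c, d, hcd, rfl⟩
  exact h3 c d hcd

section gal

variable {F Ω L0 Λ : Type} [Field F] [Field Ω] [Algebra F Ω] [Normal F Ω] [Field L0]
  [Field Λ] [Algebra L0 Λ] [Normal L0 Λ]

/-- the group of the permutations of the roots -/
def HP {n : ℕ} (w : Fin n → Ω) : Subgroup (Equiv.Perm (Fin n)) where
  carrier := {π | ∃ σ : Ω ≃ₐ[F] Ω, ∀ j, σ (w j) = w (π j)}
  mul_mem' := by
    rintro π π' ⟨σ, h2⟩ ⟨σ', h2'⟩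
    refine ⟨σ'.trans σ, fun j => ?_⟩
    rw [AlgEquiv.trans_apply, h2', h2]
    rfl
  one_mem' := ⟨AlgEquiv.refl, fun _ => rfl⟩
  inv_mem' := by
    rintro π ⟨σ, h2⟩
    refine ⟨σ.symm, fun j => ?_⟩
    have h3 := h2 ((π⁻¹ : Equiv.Perm (Fin n)) j)
    have h4 : π ((π⁻¹ : Equiv.Perm (Fin n)) j) = j := Equiv.apply_symm_apply π j
    rw [h4] at h3
    rw [← h3, AlgEquiv.symm_apply_apply]

/-- **Local automorphisms.** -/
theorem loc_perm {n : ℕ} (P : F[X]) (w : Fin n → Ω) (hw : P.map (algebraMap F Ω) = ∏ j, (X - C (w j)))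
    (hwi : Function.Injective w) (J : Ω →+* Λ) (ι : F →+* L0)
    (hJ : ∀ z, J (algebraMap F Ω z) = algebraMap L0 Λ (ι z)) (τ : Λ ≃ₐ[L0] Λ) :
    ∃ π ∈ HP (F := F) w, ∀ j, τ (J (w j)) = J (w (π j)) := by
  classical
  letI : Algebra Ω Λ := J.toAlgebra
  letI : Algebra F Λ := (J.comp (algebraMap F Ω)).toAlgebra
  haveI : IsScalarTower F Ω Λ := IsScalarTower.of_algebraMap_eq (fun _ => rfl)
  have hτ : ∀ z : F, τ (algebraMap F Λ z) = algebraMap F Λ z := by
    intro z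
    have h1 : algebraMap F Λ z = algebraMap L0 Λ (ι z) := hJ z
    rw [h1, τ.commutes]
  let τ' : Λ ≃ₐ[F] Λ := { (τ : Λ ≃+* Λ) with commutes' := hτ }
  set σ : Ω ≃ₐ[F] Ω := τ'.restrictNormal Ω with hσ
  have hσJ : ∀ z : Ω, J (σ z) = τ (J z) := by
    intro z
    exact AlgEquiv.restrictNormal_commutes τ' Ω z
  have hroot : ∀ z : Ω, (P.map (algebraMap F Ω)).eval z = 0 ↔ ∃ j, w j = z := by
    intro z
    rw [hw, eval_prod, Finset.prod_eq_zero_iff]
    constructor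
    · rintro ⟨j, _, h⟩
      rw [eval_sub, eval_X, eval_C, sub_eq_zero] at h
      exact ⟨j, h.symm⟩
    · rintro ⟨j, rfl⟩
      exact ⟨j, mem_univ j, by simp⟩
  have hg : ∀ j, ∃ j', w j' = σ (w j) := by
    intro j
    rw [← hroot]
    have h1 := (hroot (w j)).2 ⟨j, rfl⟩
    rw [eval_map_algebraMap] at h1 ⊢
    rw [aeval_algHom_apply, h1, map_zero]
  choose g hg using hg
  have hginj : Function.Injective g := by
    intro j j' h
    apply hwi
    apply σ.injective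
    rw [← hg, ← hg, h]
  refine ⟨Equiv.ofBijective g (Finite.injective_iff_bijective.1 hginj),
    ⟨σ, fun j => (hg j).symm⟩, fun j => ?_⟩
  rw [← hσJ, ← hg]
  rfl

/-- conjugate roots of an irreducible factor -/
theorem loc_conj {n : ℕ} (P : F[X]) (w : Fin n → Ω) (hw : P.map (algebraMap F Ω) = ∏ j, (X - C (w j)))
    (hwi : Function.Injective w) (J : Ω →+* Λ) (ι : F →+* L0)
    (hJ : ∀ z, J (algebraMap F Ω z) = algebraMap L0 Λ (ι z)) (g : L0[X]) (hg : Irreducible g)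
    (i i' : Fin n) (hi : aeval (J (w i)) g = 0) (hi' : aeval (J (w i')) g = 0) :
    ∃ π ∈ HP (F := F) w, π i = i' ∧ ∀ j, J (w j) ∈ Set.range (algebraMap L0 Λ) → π j = j := by
  classical
  have hmin : minpoly L0 (J (w i)) = minpoly L0 (J (w i')) := by
    rw [← minpoly.eq_of_irreducible hg hi, ← minpoly.eq_of_irreducible hg hi']
  have hint : IsIntegral L0 (J (w i)) := by
    rw [← minpoly.ne_zero_iff]
    rw [← minpoly.eq_of_irreducible hg hi]
    exact mul_ne_zero hg.ne_zero (by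
      rw [Ne, C_eq_zero, inv_eq_zero]
      exact leadingCoeff_ne_zero.2 hg.ne_zero)
  obtain ⟨τ, hτ⟩ := minpoly.exists_algEquiv_of_root (K := L0) (L := Λ) (x := J (w i))
    (y := J (w i')) (by
      rw [← minpoly.ne_zero_iff] at hint
      have h0 : minpoly L0 (J (w i')) ≠ 0 := by rw [← hmin]; exact hint
      exact (minpoly.ne_zero_iff.1 h0).isAlgebraic) (by
      rw [← hmin]
      exact minpoly.aeval _ _)
  obtain ⟨π, hπ, h⟩ := loc_perm P w hw hwi J ι hJ τ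
  refine ⟨π, hπ, ?_, ?_⟩
  · apply hwi
    apply J.injective
    rw [← h, hτ]
  · rintro j ⟨z, hz⟩
    apply hwi
    apply J.injective
    rw [← h, ← hz, τ.commutes]

/-- **Three local facts.** -/
theorem HP_top [IsAlgClosed Λ] [CharZero L0] {n : ℕ} (P : F[X]) (w : Fin n → Ω)
    (hw : P.map (algebraMap F Ω) = ∏ j, (X - C (w j))) (hwi : Function.Injective w)
    (hemb : ∀ ι : F →+* L0, ∃ J : Ω →+* Λ, ∀ z, J (algebraMap F Ω z) = algebraMap L0 Λ (ι z))
    (ι₁ ι₂ ι₃ : F →+* L0) (h1 : Irreducible (P.map ι₁))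
    (h2 : ∃ (z : L0) (g : L0[X]), P.map ι₂ = (X - C z) * g ∧ Irreducible g)
    (h3 : ∃ (m : ℕ) (q : L0[X]) (v : Fin m → L0), P.map ι₃ = q * ∏ k, (X - C (v k)) ∧
      q.Monic ∧ q.natDegree = 2 ∧ Irreducible q) :
    HP (F := F) w = ⊤ := by
  classical
  have hev : ∀ (ι : F →+* L0) (J : Ω →+* Λ) (hJ : ∀ z, J (algebraMap F Ω z) = algebraMap L0 Λ (ι z)),
      (P.map ι).map (algebraMap L0 Λ) = ∏ j, (X - C (J (w j))) := by
    intro ι J hJ
    have h4 : (P.map ι).map (algebraMap L0 Λ) = (P.map (algebraMap F Ω)).map J := by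
      rw [Polynomial.map_map, Polynomial.map_map]
      congr 1
      ext z
      rw [RingHom.comp_apply, RingHom.comp_apply, hJ]
    rw [h4, hw, Polynomial.map_prod]
    refine prod_congr rfl fun j _ => ?_
    rw [Polynomial.map_sub, map_X, map_C]
  -- transitivity
  obtain ⟨J₁, hJ₁⟩ := hemb ι₁
  obtain ⟨J₂, hJ₂⟩ := hemb ι₂
  obtain ⟨J₃, hJ₃⟩ := hemb ι₃
  have hroot : ∀ (ι : F →+* L0) (J : Ω →+* Λ) (hJ : ∀ z, J (algebraMap F Ω z) = algebraMap L0 Λ (ι z))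
      (z : Λ), aeval z (P.map ι) = 0 ↔ ∃ j, J (w j) = z := by
    intro ι J hJ z
    rw [← eval_map_algebraMap, hev ι J hJ, eval_prod, Finset.prod_eq_zero_iff]
    constructor
    · rintro ⟨j, _, h⟩
      rw [eval_sub, eval_X, eval_C, sub_eq_zero] at h
      exact ⟨j, h.symm⟩
    · rintro ⟨j, rfl⟩
      exact ⟨j, mem_univ j, by simp⟩
  have htr : ∀ i j, ∃ π ∈ HP (F := F) w, π i = j := by
    intro i j
    obtain ⟨π, hπ, h, _⟩ := loc_conj P w hw hwi J₁ ι₁ hJ₁ _ h1 i j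
      ((hroot ι₁ J₁ hJ₁ _).2 ⟨i, rfl⟩) ((hroot ι₁ J₁ hJ₁ _).2 ⟨j, rfl⟩)
    exact ⟨π, hπ, h⟩
  -- the point stabiliser
  obtain ⟨z, g, hg, hgi⟩ := h2
  obtain ⟨i₀, hi₀⟩ := (hroot ι₂ J₂ hJ₂ (algebraMap L0 Λ z)).1 (by
    rw [hg, map_mul, map_sub, aeval_X, aeval_C, sub_self, zero_mul])
  have hst : ∀ i j, i ≠ i₀ → j ≠ i₀ → ∃ π ∈ HP (F := F) w, π i₀ = i₀ ∧ π i = j := by
    intro i j hi hj
    have h5 : ∀ k, k ≠ i₀ → aeval (J₂ (w k)) g = 0 := by
      intro k hk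
      have h6 := (hroot ι₂ J₂ hJ₂ _).2 ⟨k, rfl⟩
      rw [hg, map_mul, map_sub, aeval_X, aeval_C, mul_eq_zero, sub_eq_zero, ← hi₀] at h6
      rcases h6 with h6 | h6
      · exact absurd (hwi (J₂.injective h6)) hk
      · exact h6
    obtain ⟨π, hπ, h, h'⟩ := loc_conj P w hw hwi J₂ ι₂ hJ₂ g hgi i j (h5 i hi) (h5 j hj)
    exact ⟨π, hπ, h' i₀ ⟨z, hi₀.symm⟩, h⟩
  -- the transposition
  obtain ⟨m, q, v, hq, hqm, hqd, hqi⟩ := h3
  have hqs : (q.map (algebraMap L0 Λ)).Splits := IsAlgClosed.splits _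
  have hqcard : (q.map (algebraMap L0 Λ)).roots.card = 2 := by
    rw [← hqd, ← hqs.natDegree_eq_card_roots, natDegree_map]
  obtain ⟨α, β, hαβ⟩ := Multiset.card_eq_two.1 hqcard
  have hfac : q.map (algebraMap L0 Λ) = (X - C α) * (X - C β) := by
    have h7 := hqs.eq_prod_roots
    rw [(hqm.map _).leadingCoeff, C_1, one_mul, hαβ] at h7
    rw [h7]
    simp
  have hne : α ≠ β := by
    rintro rfl
    have h8 : (q.map (algebraMap L0 Λ)).Separable := (hqi.separable).map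
    rw [hfac] at h8
    have h9 := h8.squarefree (X - C α) (dvd_refl _)
    exact not_isUnit_X_sub_C α h9
  have hqa : ∀ u : Λ, aeval u q = 0 ↔ u = α ∨ u = β := by
    intro u
    rw [← eval_map_algebraMap, hfac, eval_mul, eval_sub, eval_sub, eval_X, eval_C, eval_C,
      mul_eq_zero, sub_eq_zero, sub_eq_zero]
  obtain ⟨i, hi⟩ := (hroot ι₃ J₃ hJ₃ α).1 (by
    rw [hq, map_mul, (hqa α).2 (Or.inl rfl), zero_mul])
  obtain ⟨i', hi'⟩ := (hroot ι₃ J₃ hJ₃ β).1 (by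
    rw [hq, map_mul, (hqa β).2 (Or.inr rfl), zero_mul])
  have hii : i ≠ i' := by
    rintro rfl
    exact hne (hi.symm.trans hi')
  obtain ⟨π, hπ, hπi, hπj⟩ := loc_conj P w hw hwi J₃ ι₃ hJ₃ q hqi i i'
    ((hqa _).2 (Or.inl hi)) ((hqa _).2 (Or.inr hi'))
  have hfix : ∀ j, j ≠ i → j ≠ i' → π j = j := by
    intro j hj hj'
    apply hπj
    have h6 := (hroot ι₃ J₃ hJ₃ _).2 ⟨j, rfl⟩
    rw [hq, map_mul, mul_eq_zero, hqa] at h6
    rcases h6 with (h6 | h6) | h6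
    · exact absurd (hwi (J₃.injective (h6.trans hi.symm))) hj
    · exact absurd (hwi (J₃.injective (h6.trans hi'.symm))) hj'
    · rw [map_prod, Finset.prod_eq_zero_iff] at h6
      obtain ⟨k, _, hk⟩ := h6
      rw [map_sub, aeval_X, aeval_C, sub_eq_zero] at hk
      exact ⟨v k, hk.symm⟩
  have hπ' : π i' = i := by
    by_contra hc
    have hc' : π i' ≠ i' := fun h => hii (π.injective (hπi.trans h.symm))
    have h10 := hfix (π i') hc hc'
    exact hc' (π.injective h10)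
  have hswap : π = Equiv.swap i i' := by
    ext j
    by_cases hj : j = i
    · rw [hj, hπi, Equiv.swap_apply_left]
    · by_cases hj' : j = i'
      · rw [hj', hπ', Equiv.swap_apply_right]
      · rw [hfix j hj hj', Equiv.swap_apply_of_ne_of_ne hj hj']
  exact top_of_local _ htr i₀ hst i i' hii (hswap ▸ hπ)

end gal

end Pool.Agent.K9h5.W
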