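import Mathlib
import Pool.Agent.K9h5.W.Gal3
import Pool.Agent.K9h5.T.Galn

/-!
# Full monodromy over the function field from three local facts
-/

set_option autoImplicit false
set_option linter.all false

namespace Pool.Agent.K9h5.W

open Polynomial Finset Pool.Agent.K9h5 Pool.Agent.K9h5.T

theorem full_of_loc {K L0 : Type} [Field K] [Field L0] [CharZero L0] (a b : K) {n : ℕ}
    (c : Fin n → QA K a b)
    (hres : resultant (pol c) (derivative (pol c)) n (n - 1) ≠ 0)
    (ι₁ ι₂ ι₃ : QA K a b →+* L0) (i1 : Function.Injective ι₁) (i2 : Function.Injective ι₂)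
    (i3 : Function.Injective ι₃) (h1 : Irreducible ((pol c).map ι₁))
    (h2 : ∃ (z : L0) (g : L0[X]), (pol c).map ι₂ = (X - C z) * g ∧ Irreducible g)
    (h3 : ∃ (m : ℕ) (q : L0[X]) (v : Fin m → L0), (pol c).map ι₃ = q * ∏ k, (X - C (v k)) ∧
      q.Monic ∧ q.natDegree = 2 ∧ Irreducible q) : Full1 a b c := by
  classical
  set P : (FE a b)[X] := (pol c).map (algebraMap (QA K a b) (FE a b)) with hP
  obtain ⟨w, hw⟩ := exists_roots (pol (fun k => jO a b (c k))) (pol_monic _) (pol_natDegree _)
  have hPw : P.map (algebraMap (FE a b) (Om a b)) = ∏ j, (X - C (w j)) := by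
    rw [← hw, hP, Polynomial.map_map]
    exact pol_map (jO a b) c
  have hwi : Function.Injective w := by
    have h4 : (pol (fun k => jO a b (c k))).Separable := by
      rw [res_sep _ (pol_monic _) n (pol_natDegree _), ← pol_map, derivative_map,
        resultant_map_map, Ne, map_eq_zero_iff _ (jO_inj a b)]
      exact hres
    rw [hw, separable_prod_X_sub_C_iff] at h4
    exact h4
  have hemb : ∀ ι : FE a b →+* L0, ∃ J : Om a b →+* AlgebraicClosure L0, ∀ z,
      J (algebraMap (FE a b) (Om a b) z) = algebraMap L0 (AlgebraicClosure L0) (ι z) := by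
    intro ι
    haveI : Algebra.IsIntegral (FE a b) (Om a b) := Algebra.IsAlgebraic.isIntegral
    exact ext_hom (A := FE a b) (B := Om a b) ((algebraMap L0 (AlgebraicClosure L0)).comp ι) (by
        intro z hz
        rw [RingHom.mem_ker] at hz ⊢
        have hz0 : z = 0 := (algebraMap (FE a b) (Om a b)).injective (by rw [hz, map_zero])
        rw [hz0, map_zero])
  have hlift : ∀ (ι : QA K a b →+* L0) (hi : Function.Injective ι),
      P.map (IsFractionRing.lift hi : FE a b →+* L0) = (pol c).map ι := by
    intro ι hi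
    rw [hP, Polynomial.map_map]
    congr 1
    exact RingHom.ext fun z => IsFractionRing.lift_algebraMap hi z
  have htop := HP_top (Λ := AlgebraicClosure L0) P w hPw hwi hemb (IsFractionRing.lift i1)
    (IsFractionRing.lift i2) (IsFractionRing.lift i3) (by rw [hlift]; exact h1)
    (by rw [hlift]; exact h2) (by rw [hlift]; exact h3)
  refine ⟨w, hw, hwi, fun π => ?_⟩
  have hπ : π ∈ HP (F := FE a b) w := by
    rw [htop]
    exact Subgroup.mem_top π
  obtain ⟨σ, hσ⟩ := hπ
  exact ⟨(σ : Om a b ≃+* Om a b), fun z => σ.commutes _, hσ⟩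

end Pool.Agent.K9h5.W
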