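import Mathlib

/-!
# The trinomial `w ^ n - L w ^ (n - 1) + L M`
-/

set_option autoImplicit false
set_option linter.all false

namespace Pool.Agent.K9h5.W

open Polynomial

/-- the trinomial -/
noncomputable def tri {R : Type} [CommRing R] (n : ℕ) (L M : R) : R[X] :=
  X ^ n - C L * X ^ (n - 1) + C (L * M)

/-- the critical value -/
noncomputable def kap (n : ℕ) : ℂ := ((n : ℂ) - 1) ^ (n - 1) / (n : ℂ) ^ n

/-- the local field -/
abbrev LF : Type := FractionRing (PowerSeries ℂ)

end Pool.Agent.K9h5.W
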