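import Mathlib
import Pool.Agent.K9h5.W.Tri

/-!
# The trinomial over the power series: local factorisations (helper99)
-/

set_option autoImplicit false
set_option linter.all false

namespace Pool.Agent.K9h5.W

open Polynomial

namespace Loc3

abbrev PC : Type := PowerSeries ℂ

theorem mem_spanX (f : PC) : f ∈ Ideal.span {(PowerSeries.X : PC)} ↔
    PowerSeries.constantCoeff f = 0 := by
  rw [Ideal.mem_span_singleton, PowerSeries.X_dvd_iff]

theorem cc_eval (g : PC[X]) (z : PC) : PowerSeries.constantCoeff (g.eval z) =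
    (g.map PowerSeries.constantCoeff).eval (PowerSeries.constantCoeff z) := by
  have h2 := Polynomial.eval₂_at_apply (p := g) (PowerSeries.constantCoeff (R := ℂ)) z
  rw [← h2, eval_map]

/-- Hensel -/
theorem hens (f : PC[X]) (hf : f.Monic) (a₀ : ℂ)
    (h0 : (f.map PowerSeries.constantCoeff).eval a₀ = 0)
    (h1 : (derivative (f.map PowerSeries.constantCoeff)).eval a₀ ≠ 0) :
    ∃ z : PC, f.eval z = 0 ∧ PowerSeries.constantCoeff z = a₀ := by
  have hc : ∀ g : PC[X], PowerSeries.constantCoeff (g.eval (PowerSeries.C a₀)) =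
      (g.map PowerSeries.constantCoeff).eval a₀ := by
    intro g
    rw [cc_eval, PowerSeries.constantCoeff_C]
  obtain ⟨z, hz, hz'⟩ := HenselianRing.is_henselian (I := Ideal.span {(PowerSeries.X : PC)})
    f hf (PowerSeries.C a₀) (by rw [mem_spanX, hc, h0]) (by
      apply IsUnit.map
      rw [PowerSeries.isUnit_iff_constantCoeff, hc, ← derivative_map]
      exact isUnit_iff_ne_zero.2 h1)
  refine ⟨z, hz, ?_⟩
  rw [mem_spanX, map_sub, PowerSeries.constantCoeff_C, sub_eq_zero] at hz'
  exact hz'

theorem cc_of_order_one {L : PC} (h : L.order = 1) : PowerSeries.constantCoeff L = 0 := by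
  rw [← PowerSeries.coeff_zero_eq_constantCoeff_apply]
  apply PowerSeries.coeff_of_lt_order
  rw [h]
  exact_mod_cast Nat.zero_lt_one

theorem order_zero {M : PC} (h : PowerSeries.constantCoeff M ≠ 0) : M.order = 0 := by
  apply PowerSeries.order_zero_of_unit
  rw [PowerSeries.isUnit_iff_constantCoeff]
  exact isUnit_iff_ne_zero.2 h

theorem not_sq {a : PC} (h : a.order = 1) : a ∉ (Ideal.span {(PowerSeries.X : PC)}) ^ 2 := by
  rw [Ideal.span_singleton_pow, Ideal.mem_span_singleton, PowerSeries.X_pow_dvd_iff]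
  intro hcon
  have h1 : (2 : ℕ∞) ≤ a.order := PowerSeries.nat_le_order a 2 fun i hi => hcon i hi
  rw [h] at h1
  exact absurd h1 (by decide)

/-- Eisenstein and Gauss -/
theorem eis (f : PC[X]) (d : ℕ) (hd : 0 < d) (hm : f.Monic) (hdeg : f.natDegree = d)
    (hmap : f.map PowerSeries.constantCoeff = X ^ d) (h0 : (f.coeff 0).order = 1) :
    Irreducible (f.map (algebraMap PC LF)) := by
  rw [← Monic.irreducible_iff_irreducible_map_fraction_map (K := LF) hm]
  have hprime : (Ideal.span {(PowerSeries.X : PC)}).IsPrime := by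
    rw [Ideal.span_singleton_prime PowerSeries.X_ne_zero]
    exact PowerSeries.X_prime
  refine IsEisensteinAt.irreducible (𝓟 := Ideal.span {(PowerSeries.X : PC)}) ⟨?_, ?_, ?_⟩
    hprime hm.isPrimitive (by omega)
  · rw [hm.leadingCoeff, mem_spanX, map_one]
    exact one_ne_zero
  · intro k hk
    rw [mem_spanX]
    have h1 := congrArg (fun p => p.coeff k) hmap
    simp only [coeff_map, coeff_X_pow] at h1
    rw [h1, if_neg (by omega)]
  · exact not_sq h0

section

variable {R : Type} [CommRing R] [Nontrivial R]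

theorem tri_aux {n : ℕ} (hn : 2 ≤ n) (L M : R) :
    (-(C L * X ^ (n - 1)) + C (L * M) : R[X]).degree < (n : ℕ) := by
  refine (degree_add_le _ _).trans_lt (max_lt ?_ ?_)
  · rw [degree_neg]
    refine (degree_C_mul_X_pow_le _ _).trans_lt ?_
    exact_mod_cast (by omega : n - 1 < n)
  · refine degree_C_le.trans_lt ?_
    exact_mod_cast (by omega : 0 < n)

theorem tri_eq {n : ℕ} (L M : R) :
    tri n L M = X ^ n + (-(C L * X ^ (n - 1)) + C (L * M)) := by
  unfold tri
  ring

theorem tri_monic {n : ℕ} (hn : 2 ≤ n) (L M : R) : (tri n L M).Monic := by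
  rw [tri_eq]
  exact monic_X_pow_add (tri_aux hn L M)

theorem tri_natDegree {n : ℕ} (hn : 2 ≤ n) (L M : R) : (tri n L M).natDegree = n := by
  rw [tri_eq]
  rw [natDegree_eq_of_degree_eq_some]
  rw [degree_add_eq_left_of_degree_lt]
  · exact degree_X_pow n
  · rw [degree_X_pow]
    exact tri_aux hn L M

theorem tri_coeff_zero {n : ℕ} (hn : 2 ≤ n) (L M : R) : (tri n L M).coeff 0 = L * M := by
  unfold tri
  rw [coeff_add, coeff_sub, coeff_X_pow, coeff_C_mul, coeff_X_pow, if_neg (by omega),
    if_neg (by omega), coeff_C_zero]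
  ring

end

theorem tri_map (n : ℕ) (L M : PC) : (tri n L M).map PowerSeries.constantCoeff =
    tri n (PowerSeries.constantCoeff L) (PowerSeries.constantCoeff M) := by
  unfold tri
  simp only [Polynomial.map_add, Polynomial.map_sub, Polynomial.map_mul, Polynomial.map_pow,
    map_X, map_C, map_mul]

end Loc3

open Loc3

theorem tri_one {n : ℕ} (hn : 2 ≤ n) (L M : PowerSeries ℂ) (hL : L.order = 1)
    (hM : PowerSeries.constantCoeff M ≠ 0) :
    Irreducible ((tri n L M).map (algebraMap (PowerSeries ℂ) LF)) := by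
  refine eis _ n (by omega) (tri_monic hn L M) (tri_natDegree hn L M) ?_ ?_
  · rw [tri_map, cc_of_order_one hL]
    unfold tri
    simp
  · rw [tri_coeff_zero hn, PowerSeries.order_mul, hL, order_zero hM, add_zero]

theorem tri_two {n : ℕ} (hn : 2 ≤ n) (L M : PowerSeries ℂ)
    (hL : PowerSeries.constantCoeff L ≠ 0) (hM : M.order = 1) :
    ∃ (c : PowerSeries ℂ) (g : (PowerSeries ℂ)[X]), tri n L M = (X - C c) * g ∧
      Irreducible (g.map (algebraMap (PowerSeries ℂ) LF)) := by
  obtain ⟨m, rfl⟩ : ∃ m, n = m + 2 := ⟨n - 2, by omega⟩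
  have hM0 := cc_of_order_one hM
  set L0 := PowerSeries.constantCoeff L with hL0
  have hmap : (tri (m + 2) L M).map PowerSeries.constantCoeff = (X - C L0) * X ^ (m + 1) := by
    rw [tri_map, hM0]
    unfold tri
    rw [mul_zero, map_zero, add_zero, show m + 2 - 1 = m + 1 from rfl, pow_succ X (m + 1)]
    ring
  obtain ⟨c, hc, hc0⟩ := hens (tri (m + 2) L M) (tri_monic hn L M) L0 (by
    rw [hmap]
    simp) (by
    rw [hmap, derivative_mul]
    simp only [derivative_sub, derivative_X, derivative_C, sub_zero, one_mul, eval_add, eval_mul,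
      eval_pow, eval_X, eval_sub, eval_C, sub_self, zero_mul, add_zero]
    exact pow_ne_zero _ hL)
  obtain ⟨g, hg⟩ := dvd_iff_isRoot.2 hc
  have hmon := tri_monic hn L M
  have hgm : g.Monic := by
    rw [hg] at hmon
    exact (monic_X_sub_C c).of_mul_monic_left hmon
  have hgd : g.natDegree = m + 1 := by
    have h1 := tri_natDegree hn L M
    rw [hg, (monic_X_sub_C c).natDegree_mul hgm, natDegree_X_sub_C] at h1
    omega
  refine ⟨c, g, hg, eis g (m + 1) (by omega) hgm hgd ?_ ?_⟩
  · rw [hg, Polynomial.map_mul, Polynomial.map_sub, map_X, map_C, hc0] at hmap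
    exact mul_left_cancel₀ (X_sub_C_ne_zero L0) hmap
  · have h1 := tri_coeff_zero hn L M
    rw [hg, mul_coeff_zero, coeff_sub, coeff_X_zero, coeff_C_zero, zero_sub, neg_mul] at h1
    have h2 := congrArg PowerSeries.order h1
    rw [PowerSeries.order_neg, PowerSeries.order_mul, PowerSeries.order_mul, hM,
      order_zero hL, order_zero (by rw [hc0]; exact hL), zero_add, zero_add] at h2
    exact h2

namespace Loc3

/-- a monic complex polynomial is a product of linear factors -/
theorem roots_fin (P : ℂ[X]) (hP : P.Monic) (d : ℕ) (hd : P.natDegree = d) :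
    ∃ r : Fin d → ℂ, P = ∏ j, (X - C (r j)) := by
  have hs : P.Splits := IsAlgClosed.splits P
  have h1 := hs.eq_prod_roots_of_monic hP
  have hlen : P.roots.toList.length = d := by
    rw [Multiset.length_toList, ← hs.natDegree_eq_card_roots, hd]
  subst hlen
  refine ⟨fun j => P.roots.toList.get j, ?_⟩
  have h2 : P.roots.toList = List.ofFn (fun j => P.roots.toList.get j) := (List.ofFn_get _).symm
  have h3 : (List.map (fun x => X - C x) P.roots.toList).prod =
      (List.ofFn (fun j => X - C (P.roots.toList.get j))).prod := by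
    conv_lhs => rw [h2]
    rw [List.map_ofFn]
    rfl
  have h4 : (Multiset.map (fun x => X - C x) P.roots).prod =
      (List.map (fun x => X - C x) P.roots.toList).prod := by
    conv_lhs => rw [← Multiset.coe_toList P.roots]
    rw [Multiset.map_coe, Multiset.prod_coe]
  exact (h1.trans h4).trans (h3.trans (List.prod_ofFn))

end Loc3

theorem tri_three {n : ℕ} (hn : 2 ≤ n) : ∃ (q : (PowerSeries ℂ)[X]) (c : Fin (n - 2) → PowerSeries ℂ),
    tri n (1 + PowerSeries.X) (PowerSeries.C (kap n) + PowerSeries.X) = q * ∏ k, (X - C (c k)) ∧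
    q.Monic ∧ q.natDegree = 2 ∧ Irreducible (q.map (algebraMap (PowerSeries ℂ) LF)) := by
  classical
  obtain ⟨m, rfl⟩ : ∃ m, n = m + 2 := ⟨n - 2, by omega⟩
  set κ := kap (m + 2) with hκ
  set f : (PowerSeries ℂ)[X] := tri (m + 2) (1 + PowerSeries.X) (PowerSeries.C κ + PowerSeries.X)
    with hf
  have hfm : f.Monic := tri_monic hn _ _
  have hfd : f.natDegree = m + 2 := tri_natDegree hn _ _
  -- the reduction
  set F : ℂ[X] := X ^ (m + 2) - X ^ (m + 1) + C κ with hF
  have hmap : f.map PowerSeries.constantCoeff = F := by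
    rw [hf, tri_map]
    unfold tri
    simp only [map_add, PowerSeries.constantCoeff_C, PowerSeries.constantCoeff_X, map_one, add_zero,
      one_mul]
    rw [show m + 2 - 1 = m + 1 from rfl]
  have hFm : F.Monic := by rw [← hmap]; exact hfm.map _
  have hFd : F.natDegree = m + 2 := by rw [← hmap, hfm.natDegree_map, hfd]
  -- the double root
  set N : ℂ := (m : ℂ) + 2 with hN
  have hN0 : N ≠ 0 := by
    rw [hN]
    have : ((m + 2 : ℕ) : ℂ) ≠ 0 := by exact_mod_cast (by omega : m + 2 ≠ 0)
    push_cast at this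
    exact this
  have hN1 : N - 1 ≠ 0 := by
    rw [hN]
    have : ((m + 1 : ℕ) : ℂ) ≠ 0 := by exact_mod_cast (by omega : m + 1 ≠ 0)
    push_cast at this
    intro h
    apply this
    linear_combination h
  set z₀ : ℂ := (N - 1) / N with hz₀
  have hz0 : z₀ ≠ 0 := div_ne_zero hN1 hN0
  have hκ1 : κ = z₀ ^ (m + 1) / N := by
    rw [hκ, hz₀]
    unfold kap
    rw [show m + 2 - 1 = m + 1 from rfl, div_pow]
    push_cast
    rw [← hN, div_div, ← pow_succ]
  have hκ0 : κ ≠ 0 := by
    rw [hκ1]
    exact div_ne_zero (pow_ne_zero _ hz0) hN0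
  have hNz : N * z₀ = N - 1 := by
    rw [hz₀]
    field_simp
  have hFz : F.eval z₀ = 0 := by
    rw [hF]
    simp only [eval_add, eval_sub, eval_pow, eval_X, eval_C]
    rw [hκ1]
    field_simp
    linear_combination z₀ ^ (m + 1) * hNz
  have hF' : derivative F = C N * X ^ m * (X - C z₀) := by
    rw [hF]
    have e1 : (C N * X ^ m * (X - C z₀) : ℂ[X]) = C N * X ^ (m + 1) - C (N * z₀) * X ^ m := by
      rw [C_mul]
      ring
    rw [e1, hNz]
    simp only [derivative_add, derivative_sub, derivative_X_pow, derivative_C, add_zero]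
    rw [hN]
    have e2 : ((m + 2 : ℕ) : ℂ) = (m : ℂ) + 2 := by push_cast; ring
    have e3 : ((m + 1 : ℕ) : ℂ) = (m : ℂ) + 2 - 1 := by push_cast; ring
    rw [show m + 2 - 1 = m + 1 from rfl, show m + 1 - 1 = m from rfl, e2, e3]
  obtain ⟨h₁, hh₁⟩ := dvd_iff_isRoot.2 hFz
  have hh₁z : h₁.eval z₀ = 0 := by
    have h2 := congrArg derivative hh₁
    rw [hF', derivative_mul, derivative_sub, derivative_X, derivative_C, sub_zero, one_mul] at h2
    have h3 := congrArg (fun p => p.eval z₀) h2
    simp only [eval_mul, eval_add, eval_sub, eval_X, eval_C, sub_self, mul_zero, zero_mul,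
      add_zero] at h3
    exact h3.symm
  obtain ⟨h, hh⟩ := dvd_iff_isRoot.2 hh₁z
  have hFh : F = (X - C z₀) ^ 2 * h := by
    rw [hh₁, hh]
    ring
  have hhm : h.Monic := by
    rw [hFh] at hFm
    exact ((monic_X_sub_C z₀).pow 2).of_mul_monic_left hFm
  have hhd : h.natDegree = m := by
    have h1 := hFd
    rw [hFh, ((monic_X_sub_C z₀).pow 2).natDegree_mul hhm, (monic_X_sub_C z₀).natDegree_pow,
      natDegree_X_sub_C] at h1
    omega
  -- the identity for the derivative
  have hid : 2 * h + (X - C z₀) * derivative h = C N * X ^ m := by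
    have h2 := congrArg derivative hFh
    rw [hF', derivative_mul, derivative_pow, derivative_sub, derivative_X, derivative_C,
      sub_zero, mul_one] at h2
    have h3 : (X - C z₀) * (2 * h + (X - C z₀) * derivative h) = (X - C z₀) * (C N * X ^ m) := by
      push_cast at h2
      simp only [map_ofNat] at h2
      linear_combination -h2
    exact mul_left_cancel₀ (X_sub_C_ne_zero z₀) h3
  have hroot : ∀ a : ℂ, h.eval a = 0 → a ≠ z₀ ∧ (derivative h).eval a ≠ 0 ∧ a ≠ 0 := by
    intro a ha
    have ha0 : a ≠ 0 := by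
      rintro rfl
      have h2 : F.eval 0 = 0 := by rw [hFh, eval_mul, ha, mul_zero]
      rw [hF] at h2
      simp only [eval_add, eval_sub, eval_pow, eval_X, eval_C] at h2
      rw [zero_pow (by omega), zero_pow (by omega)] at h2
      apply hκ0
      linear_combination h2
    have h3 := congrArg (fun p => p.eval a) hid
    simp only [eval_add, eval_mul, eval_sub, eval_X, eval_C, eval_pow, ha, mul_zero, zero_add] at h3
    have h4 : N * a ^ m ≠ 0 := mul_ne_zero hN0 (pow_ne_zero _ ha0)
    rw [← h3] at h4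
    exact ⟨sub_ne_zero.1 (left_ne_zero_of_mul h4), right_ne_zero_of_mul h4, ha0⟩
  obtain ⟨r, hr⟩ := roots_fin h hhm m hhd
  have hrr : ∀ j, h.eval (r j) = 0 := by
    intro j
    rw [hr, eval_prod, Finset.prod_eq_zero (Finset.mem_univ j)]
    rw [eval_sub, eval_X, eval_C, sub_self]
  have hsep : h.Separable := by
    show IsCoprime h (derivative h)
    refine (Polynomial.isCoprime_iff_aeval_ne_zero_of_isAlgClosed ℂ ℂ h (derivative h)).2 ?_
    intro a
    have e : ∀ p : ℂ[X], aeval a p = p.eval a := fun p => congrFun (coe_aeval_eq_eval a) p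
    by_cases ha : h.eval a = 0
    · right
      rw [e]
      exact (hroot a ha).2.1
    · left
      rw [e]
      exact ha
  have hinj : Function.Injective r := by
    rw [hr, separable_prod_X_sub_C_iff] at hsep
    exact hsep
  -- the roots of `f`
  have hlift : ∀ j, ∃ z : PowerSeries ℂ, f.eval z = 0 ∧ PowerSeries.constantCoeff z = r j := by
    intro j
    obtain ⟨k1, k2, k3⟩ := hroot (r j) (hrr j)
    apply hens f hfm
    · rw [hmap, hFh, eval_mul, hrr j, mul_zero]
    · rw [hmap, hF']
      simp only [eval_mul, eval_C, eval_pow, eval_X, eval_sub]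
      exact mul_ne_zero (mul_ne_zero hN0 (pow_ne_zero _ k3)) (sub_ne_zero.2 k1)
  choose c hc hcr using hlift
  have hdvd : (∏ j, (X - C (c j))) ∣ f := by
    apply Finset.prod_dvd_of_coprime
    · intro i _ j _ hij
      show IsCoprime (X - C (c i)) (X - C (c j))
      apply isCoprime_X_sub_C_of_isUnit_sub
      rw [PowerSeries.isUnit_iff_constantCoeff, map_sub, hcr, hcr]
      exact isUnit_iff_ne_zero.2 (sub_ne_zero.2 fun h => hij (hinj h))
    · intro j _
      rw [dvd_iff_isRoot]
      exact hc j
  have hpm : (∏ j, (X - C (c j))).Monic := monic_prod_of_monic _ _ fun s _ => monic_X_sub_C _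
  obtain ⟨q, hq⟩ := hdvd
  have hqm : q.Monic := by
    rw [hq] at hfm
    exact hpm.of_mul_monic_left hfm
  have hqd : q.natDegree = 2 := by
    have h1 := hfd
    rw [hq, hpm.natDegree_mul hqm, natDegree_finset_prod_X_sub_C_eq_card, Finset.card_univ,
      Fintype.card_fin] at h1
    omega
  have hqmap : q.map PowerSeries.constantCoeff = (X - C z₀) ^ 2 := by
    have h1 := hmap
    rw [hq, Polynomial.map_mul, Polynomial.map_prod, hFh] at h1
    have h2 : ∏ i, Polynomial.map PowerSeries.constantCoeff (X - C (c i)) = h := by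
      rw [hr]
      refine Finset.prod_congr rfl fun j _ => ?_
      rw [Polynomial.map_sub, map_X, map_C, hcr]
    rw [h2, mul_comm] at h1
    exact mul_right_cancel₀ hhm.ne_zero h1
  refine ⟨q, c, ?_, hqm, hqd, ?_⟩
  · exact hq.trans (mul_comm _ _)
  · rw [← Monic.irreducible_iff_irreducible_map_fraction_map (K := LF) hqm,
      hqm.irreducible_iff_roots_eq_zero_of_degree_le_three (by omega) (by omega),
      Multiset.eq_zero_iff_forall_notMem]
    intro z hz
    rw [mem_roots hqm.ne_zero] at hz
    have hz1 : q.eval z = 0 := hz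
    have hzc : PowerSeries.constantCoeff z = z₀ := by
      have h1 := cc_eval q z
      rw [hz1, map_zero, hqmap] at h1
      simp only [eval_pow, eval_sub, eval_X, eval_C] at h1
      have h2 := pow_eq_zero_iff (two_ne_zero) |>.1 h1.symm
      exact sub_eq_zero.1 h2
    have hfz : f.eval z = 0 := by rw [hq, eval_mul, hz1, mul_zero]
    obtain ⟨v, hv⟩ : ∃ v : PowerSeries ℂ, z - PowerSeries.C z₀ = PowerSeries.X * v := by
      have h1 : PowerSeries.X ∣ z - PowerSeries.C z₀ := by
        rw [PowerSeries.X_dvd_iff, map_sub, hzc, PowerSeries.constantCoeff_C, sub_self]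
      exact h1
    -- the value of `F` at `z`
    have hFz2 : z ^ (m + 2) - z ^ (m + 1) + PowerSeries.C κ =
        (PowerSeries.X * v) ^ 2 * (h.map PowerSeries.C).eval z := by
      have h1 := congrArg (fun p => (p.map (PowerSeries.C (R := ℂ))).eval z) hFh
      simp only [hF, Polynomial.map_add, Polynomial.map_sub, Polynomial.map_pow, Polynomial.map_mul,
        map_X, map_C, eval_add, eval_sub, eval_pow, eval_X, eval_C, eval_mul] at h1
      rw [h1, hv]
    have hfe : f.eval z = (z ^ (m + 2) - z ^ (m + 1) + PowerSeries.C κ) +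
        PowerSeries.X * (1 + PowerSeries.C κ + PowerSeries.X - z ^ (m + 1)) := by
      rw [hf]
      unfold tri
      simp only [eval_add, eval_sub, eval_pow, eval_X, eval_C, eval_mul]
      rw [show m + 2 - 1 = m + 1 from rfl]
      ring
    rw [hfz, hFz2] at hfe
    have h5 : PowerSeries.X * (PowerSeries.X * v ^ 2 * (h.map PowerSeries.C).eval z +
        (1 + PowerSeries.C κ + PowerSeries.X - z ^ (m + 1))) = 0 := by
      linear_combination -hfe
    have h6 := (mul_eq_zero.1 h5).resolve_left PowerSeries.X_ne_zero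
    have h7 := congrArg PowerSeries.constantCoeff h6
    simp only [map_add, map_sub, map_mul, map_pow, map_one, PowerSeries.constantCoeff_X,
      PowerSeries.constantCoeff_C, hzc, zero_mul, zero_add, add_zero, map_zero] at h7
    -- `1 + κ = z₀ ^ (m + 1)` is impossible
    rw [hκ1] at h7
    set x : ℝ := (((m : ℝ) + 1) / ((m : ℝ) + 2)) ^ (m + 1) with hx
    have hx0 : 0 < x := by positivity
    have hx1 : x ≤ 1 := by
      apply pow_le_one₀ (by positivity)
      rw [div_le_one (by positivity)]
      linarith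
    have hxz : z₀ ^ (m + 1) = (x : ℂ) := by
      rw [hx, hz₀, hN]
      push_cast
      congr 2
      ring
    rw [hxz, hN] at h7
    have h8 : (1 : ℝ) + x / ((m : ℝ) + 2) - x = 0 := by exact_mod_cast h7
    have h9 : 0 < x / ((m : ℝ) + 2) := by positivity
    linarith

end Pool.Agent.K9h5.W
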