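import Pool.Agent.K9h5.W.Tri


/-!
# The discriminant of the trinomial over the power series (leaf of helper90 for helper5)
-/

set_option autoImplicit false
set_option linter.all false

namespace Pool.Agent.K9h5.W
open Polynomial

/-- the resultant of the trinomial and its derivative -/
theorem tri_res_eq {R : Type} [CommRing R] [Algebra ℂ R] [Nontrivial R] {n : ℕ} (hn : 2 ≤ n) (L M : R) :
    resultant (tri n L M) (derivative (tri n L M)) n (n - 1) =
      (n : R) ^ n * (((-1) ^ (n * (n - 2)) * (L * M) ^ (n - 2)) *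
        ((-1) ^ n * (L * (M - algebraMap ℂ R (kap n) * L ^ (n - 1))))) := by
  obtain ⟨m, rfl⟩ := Nat.exists_eq_add_of_le' hn
  have hn0 : ((m : ℂ) + 2) ≠ 0 := by
    have : ((m + 2 : ℕ) : ℂ) ≠ 0 := by exact_mod_cast (by omega : m + 2 ≠ 0)
    push_cast at this
    exact this
  set z : ℂ := ((m : ℂ) + 1) / ((m : ℂ) + 2) with hz
  set r : R := algebraMap ℂ R z * L with hr
  have e1 : m + 2 - 1 = m + 1 := rfl
  have e2 : m + 2 - 2 = m := rfl
  have hdeg : (tri (m + 2) L M).natDegree ≤ m + 2 := by
    unfold tri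
    refine (natDegree_add_le _ _).trans (max_le ((natDegree_sub_le _ _).trans (max_le ?_ ?_)) ?_)
    · rw [natDegree_X_pow]
    · refine (natDegree_C_mul_le _ _).trans ?_
      rw [natDegree_X_pow, e1]; omega
    · rw [natDegree_C]; omega
  have hcast : ((m : R) + 2) = algebraMap ℂ R ((m : ℂ) + 2) := by
    rw [map_add, map_natCast, map_ofNat]
  have hnz : ((m : R) + 2) * algebraMap ℂ R z = (m : R) + 1 := by
    rw [hcast, ← map_mul, hz, mul_div_cancel₀ _ hn0, map_add, map_natCast, map_one]
  have hder : derivative (tri (m + 2) L M) =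
      C ((m : R) + 2) * (X ^ m * (X - C r)) := by
    unfold tri
    rw [e1, derivative_add, derivative_sub, derivative_X_pow, derivative_C_mul_X_pow, derivative_C,
      add_zero]
    have e3 : m + 2 - 1 = m + 1 := rfl
    have e4 : m + 1 - 1 = m := rfl
    rw [e3, e4]
    have h5 : (C ((m : R) + 2) : R[X]) * C r = C L * C ((m : R) + 1) := by
      rw [← C_mul, ← C_mul, hr, ← mul_assoc, hnz, mul_comm]
    have h6 : (C ((m : R) + 2) : R[X]) * (X ^ m * (X - C r)) =
        C ((m : R) + 2) * X ^ (m + 1) - (C ((m : R) + 2) * C r) * X ^ m := by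
      ring
    rw [h6, h5, ← C_mul]
    push_cast
    ring
  have hP0 : (tri (m + 2) L M).coeff 0 = L * M := by
    unfold tri
    rw [coeff_add, coeff_sub, coeff_C_zero, coeff_C_mul, coeff_X_pow, coeff_X_pow]
    simp
  have hPr : eval r (tri (m + 2) L M) = L * (M - algebraMap ℂ R (kap (m + 2)) * L ^ (m + 1)) := by
    unfold tri
    rw [eval_add, eval_sub, eval_mul, eval_pow, eval_pow, eval_C, eval_C, eval_X, e1]
    have h7 : algebraMap ℂ R (kap (m + 2)) =
        algebraMap ℂ R z ^ (m + 1) - algebraMap ℂ R z ^ (m + 2) := by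
      rw [← map_pow, ← map_pow, ← map_sub]
      congr 1
      rw [hz, kap]
      push_cast
      rw [show (m:ℂ) + 2 - 1 = m + 1 by ring, div_pow, div_pow]
      have h8 : ((m : ℂ) + 2) ^ (m + 2) = ((m : ℂ) + 2) ^ (m + 1) * ((m : ℂ) + 2) := pow_succ _ _
      have h9 : ((m : ℂ) + 2) ^ (m + 1) ≠ 0 := pow_ne_zero _ hn0
      rw [h8]
      field_simp
      ring
    rw [h7, hr]
    ring
  have hC : (X ^ m * (X - C r) : R[X]).natDegree = m + 1 := by
    rw [natDegree_mul' (by simp), natDegree_X_pow, natDegree_X_sub_C]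
  rw [hder, e1, e2, resultant_C_mul_right]
  have h10 := resultant_mul_right (tri (m + 2) L M) (X ^ m) (X - C r) (m + 2) hdeg
  rw [natDegree_X_pow, natDegree_X_sub_C, resultant_X_pow_right _ _ _ hdeg,
    resultant_X_sub_C_right _ _ _ hdeg, hP0, hPr] at h10
  rw [h10]
  push_cast
  ring

theorem kap_ne {n : ℕ} (hn : 2 ≤ n) : kap n ≠ 0 := by
  unfold kap
  have h1 : (n : ℂ) - 1 ≠ 0 := by
    intro h
    have : (n : ℂ) = 1 := by linear_combination h
    have : n = 1 := by exact_mod_cast this
    omega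
  have h2 : (n : ℂ) ≠ 0 := by exact_mod_cast (by omega : n ≠ 0)
  exact div_ne_zero (pow_ne_zero _ h1) (pow_ne_zero _ h2)

theorem kap_mul_ne {n : ℕ} (hn : 2 ≤ n) : kap n * ((n : ℂ) - 1) ≠ 1 := by
  have h2 : (n : ℂ) ≠ 0 := by exact_mod_cast (by omega : n ≠ 0)
  have h3 : kap n * ((n : ℂ) - 1) = (((((n : ℝ) - 1) / n) ^ n : ℝ) : ℂ) := by
    unfold kap
    push_cast
    rw [div_pow, div_mul_eq_mul_div, ← pow_succ, Nat.sub_add_cancel (by omega)]
  rw [h3]
  intro h
  have h4 : (((n : ℝ) - 1) / n) ^ n = 1 := by exact_mod_cast h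
  have hn' : (2 : ℝ) ≤ n := by exact_mod_cast hn
  have h5 : (((n : ℝ) - 1) / n) ^ n < 1 := by
    apply pow_lt_one₀
    · apply div_nonneg <;> linarith
    · rw [div_lt_one (by linarith)]; linarith
    · omega
  linarith

theorem order_of_coeff {f : PowerSeries ℂ} (h : PowerSeries.coeff 0 f ≠ 0) : f.order = 0 := by
  have := PowerSeries.order_le 0 h
  exact le_antisymm (by simpa using this) bot_le

theorem order_pow0 {f : PowerSeries ℂ} (h : f.order = 0) (k : ℕ) : (f ^ k).order = 0 := by
  rw [PowerSeries.order_pow, h]; simp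

theorem tri_res {n : ℕ} (hn : 2 ≤ n) :
    (resultant (tri n (1 + PowerSeries.X) (PowerSeries.C (kap n) + PowerSeries.X))
      (derivative (tri n (1 + PowerSeries.X) (PowerSeries.C (kap n) + PowerSeries.X))) n
        (n - 1)).order = 1 := by
  rw [tri_res_eq hn]
  have hX : PowerSeries.coeff 0 (PowerSeries.X : PowerSeries ℂ) = 0 := by simp
  have hL : (1 + PowerSeries.X : PowerSeries ℂ).order = 0 := by
    apply order_of_coeff
    simp
  have hM : (PowerSeries.C (kap n) + PowerSeries.X : PowerSeries ℂ).order = 0 := by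
    apply order_of_coeff
    simpa using kap_ne hn
  have hn1 : ((n : ℕ) : PowerSeries ℂ).order = 0 := by
    apply order_of_coeff
    have : ((n : ℕ) : PowerSeries ℂ) = PowerSeries.C (n : ℂ) := by simp
    rw [this]
    simp
    omega
  have hm1 : (-1 : PowerSeries ℂ).order = 0 := by
    apply order_of_coeff
    simp
  have hD : (PowerSeries.C (kap n) + PowerSeries.X -
      algebraMap ℂ (PowerSeries ℂ) (kap n) * (1 + PowerSeries.X) ^ (n - 1)).order = 1 := by
    have ha : algebraMap ℂ (PowerSeries ℂ) (kap n) = PowerSeries.C (kap n) := rfl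
    rw [ha]
    have hc : ∀ i, PowerSeries.coeff i ((1 + PowerSeries.X : PowerSeries ℂ) ^ (n - 1)) =
        ((n - 1).choose i : ℂ) := by
      intro i
      have h1 : ((1 + PowerSeries.X : PowerSeries ℂ) ^ (n - 1)) =
          (((1 + Polynomial.X : ℂ[X]) ^ (n - 1) : ℂ[X]) : PowerSeries ℂ) := by
        push_cast
        rfl
      rw [h1, Polynomial.coeff_coe, Polynomial.coeff_one_add_X_pow]
    have h1 : ((1 : ℕ) : ℕ∞) = 1 := rfl
    rw [← h1, PowerSeries.order_eq_nat]
    refine ⟨?_, ?_⟩
    · rw [map_sub, map_add, PowerSeries.coeff_C_mul, hc, PowerSeries.coeff_C,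
        PowerSeries.coeff_one_X, Nat.choose_one_right]
      rw [if_neg one_ne_zero, zero_add, Nat.cast_sub (by omega)]
      intro h
      apply kap_mul_ne hn
      push_cast at h
      linear_combination -h
    · intro i hi
      have : i = 0 := by omega
      subst this
      rw [map_sub, map_add, PowerSeries.coeff_C_mul, hc, PowerSeries.coeff_C, hX]
      simp
  simp only [PowerSeries.order_mul, order_pow0 hL, order_pow0 hn1, order_pow0 hm1, hL, hM, hD,
    PowerSeries.order_pow, mul_zero, zero_add, smul_zero, add_zero, nsmul_zero]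

end Pool.Agent.K9h5.W
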