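import Mathlib
import Pool.Agent.K9h5.W.Full3
import Pool.Agent.K9h5.W.Loc3
import Pool.Agent.K9h5.W.TriRes

/-!
# A cover with symmetric monodromy
-/

set_option autoImplicit false
set_option linter.all false

namespace Pool.Agent.K9h5.W

open Polynomial Finset Pool.Agent.K9h5 Pool.Agent.K9h5.T

/-- the coefficients of the trinomial -/
def cx {R : Type} [CommRing R] (n : ℕ) (L M : R) : Fin n → R :=
  fun k => if (k : ℕ) = 0 then -L else if (k : ℕ) = n - 1 then L * M else 0

theorem pol_cx {R : Type} [CommRing R] {n : ℕ} (hn : 2 ≤ n) (L M : R) :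
    pol (cx n L M) = tri n L M := by
  classical
  unfold pol tri
  have h00 : (X ^ n - C L * X ^ (n - 1) + C (L * M) : R[X]) =
      X ^ n + (-(C L * X ^ (n - 1)) + C (L * M)) := by ring
  rw [h00]
  congr 1
  rw [← Finset.add_sum_erase _ _ (mem_univ (⟨0, by omega⟩ : Fin n)),
    ← Finset.add_sum_erase _ _ (mem_erase.2 ⟨(by
      intro h
      have h1 : n - 1 = 0 := congrArg Fin.val h
      omega : (⟨n - 1, by omega⟩ : Fin n) ≠ ⟨0, by omega⟩), mem_univ _⟩),
    Finset.sum_eq_zero]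
  · have h0 : ¬ (n - 1 = 0) := by omega
    simp only [cx, if_true, if_neg h0, Nat.sub_self, pow_zero, mul_one, add_zero, Nat.sub_zero]
    rw [C_neg]
    ring
  · intro k hk
    rw [mem_erase, mem_erase] at hk
    have h1 : (k : ℕ) ≠ n - 1 := fun h => hk.1 (Fin.ext h)
    have h2 : (k : ℕ) ≠ 0 := fun h => hk.2.1 (Fin.ext h)
    simp only [cx, if_neg h1, if_neg h2, C_0, zero_mul]

theorem tri_mapR {R S : Type} [CommRing R] [CommRing S] (φ : R →+* S) (n : ℕ) (L M : R) :
    (tri n L M).map φ = tri n (φ L) (φ M) := by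
  unfold tri
  simp only [Polynomial.map_add, Polynomial.map_sub, Polynomial.map_mul, Polynomial.map_pow, map_X,
    map_C, map_mul]

theorem cx_map {R S : Type} [CommRing R] [CommRing S] (φ : R →+* S) (n : ℕ) (L M : R) (k : Fin n) :
    φ (cx n L M k) = cx n (φ L) (φ M) k := by
  unfold cx
  split_ifs
  · rw [map_neg]
  · rw [map_mul]
  · rw [map_zero]

/-- the arc at an affine point with `y ≠ 0` -/
theorem arc_aff (a b x₀ : ℂ) (h : x₀ ^ 3 + a * x₀ + b ≠ 0) :
    ∃ Y : PowerSeries ℂ, Y ^ 2 = (PowerSeries.C x₀ + PowerSeries.X) ^ 3 +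
      PowerSeries.C a * (PowerSeries.C x₀ + PowerSeries.X) + PowerSeries.C b := by
  obtain ⟨y, hy⟩ := IsAlgClosed.exists_pow_nat_eq (x₀ ^ 3 + a * x₀ + b) (n := 2) (by norm_num)
  have hy0 : y ≠ 0 := by
    rintro rfl
    apply h
    rw [← hy]
    norm_num
  set R : PowerSeries ℂ := (PowerSeries.C x₀ + PowerSeries.X) ^ 3 +
      PowerSeries.C a * (PowerSeries.C x₀ + PowerSeries.X) + PowerSeries.C b with hR
  have hR0 : PowerSeries.constantCoeff R = y ^ 2 := by
    rw [hR, hy]
    simp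
  obtain ⟨Y, hY, _⟩ := hens (X ^ 2 - C R : (PowerSeries ℂ)[X]) (by
      apply monic_X_pow_sub_C _ (by norm_num)) y (by
      simp [hR0]) (by
      simp
      exact hy0)
  refine ⟨Y, ?_⟩
  rw [eval_sub, eval_pow, eval_X, eval_C, sub_eq_zero] at hY
  exact hY

/-- the embedding at an affine point with `y ≠ 0` -/
theorem emb_aff (a b x₀ : ℂ) (h : x₀ ^ 3 + a * x₀ + b ≠ 0) :
    ∃ ι : QA ℂ a b →+* LF, Function.Injective ι ∧ ∀ u : ℂ,
      ι ⟨X - C u, 0⟩ = algebraMap (PowerSeries ℂ) LF (PowerSeries.C (x₀ - u) + PowerSeries.X) := by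
  obtain ⟨Y, hY⟩ := arc_aff a b x₀ h
  have hinj : Function.Injective (algebraMap (PowerSeries ℂ) LF) := IsFractionRing.injective _ _
  refine ⟨evQ ((algebraMap (PowerSeries ℂ) LF).comp PowerSeries.C) a b
    (algebraMap _ _ (PowerSeries.C x₀ + PowerSeries.X)) (algebraMap _ _ Y) (by
      rw [← map_pow, hY, map_add, map_add, map_pow, map_mul, RingHom.comp_apply,
        RingHom.comp_apply]), ?_, ?_⟩
  · apply inj_ev
    intro u hu
    rw [RingHom.comp_apply] at hu
    have h1 := hinj hu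
    have h2 := congrArg (PowerSeries.coeff 1) h1
    rw [map_add, PowerSeries.coeff_C, PowerSeries.coeff_one_X, PowerSeries.coeff_C] at h2
    norm_num at h2
  · intro u
    rw [evQ_apply]
    simp only [eval₂_sub, eval₂_X, eval₂_C, eval₂_zero, zero_mul, add_zero, RingHom.comp_apply]
    rw [← map_sub, map_sub PowerSeries.C]
    congr 1
    ring

theorem kap_ne1 {n : ℕ} (hn : 2 ≤ n) : kap n ≠ 1 := by
  intro h
  have hn0 : (n : ℝ) ≠ 0 := by
    have : (2 : ℝ) ≤ n := by exact_mod_cast hn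
    linarith
  have h1 : ((n : ℝ) - 1) ^ (n - 1) = (n : ℝ) ^ n := by
    have h2 : (((n : ℝ) - 1) ^ (n - 1) / (n : ℝ) ^ n : ℝ) = 1 := by
      have h3 : ((((n : ℝ) - 1) ^ (n - 1) / (n : ℝ) ^ n : ℝ) : ℂ) = 1 := by
        rw [← h]
        unfold kap
        push_cast
        rfl
      exact_mod_cast h3
    rw [div_eq_one_iff_eq (pow_ne_zero _ hn0)] at h2
    exact h2
  have h4 : (2 : ℝ) ≤ n := by exact_mod_cast hn
  have h5 : ((n : ℝ) - 1) ^ (n - 1) ≤ (n : ℝ) ^ (n - 1) :=
    pow_le_pow_left₀ (by linarith) (by linarith) _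
  have h6 : (n : ℝ) ^ (n - 1) < (n : ℝ) ^ n :=
    pow_lt_pow_right₀ (by linarith) (by omega)
  linarith

/-- **The example.** -/
theorem exists_ex {n : ℕ} (hn : 2 ≤ n) (a b : ℂ) : ∃ (α β x₀ : ℂ) (Y : PowerSeries ℂ),
    Y ^ 2 = (PowerSeries.C x₀ + PowerSeries.X) ^ 3 +
      PowerSeries.C a * (PowerSeries.C x₀ + PowerSeries.X) + PowerSeries.C b ∧
    Full1 a b (cx n (⟨X - C β, 0⟩ : QA ℂ a b) (⟨X - C α, 0⟩ : QA ℂ a b)) ∧
    (DFm (cx n (PowerSeries.C x₀ + PowerSeries.X - PowerSeries.C β)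
      (PowerSeries.C x₀ + PowerSeries.X - PowerSeries.C α))).order = 1 := by
  classical
  -- the choice of the points
  set f : ℂ[X] := X ^ 3 + C a * X + C b with hf
  have hfe : ∀ u : ℂ, f.eval u = u ^ 3 + a * u + b := by
    intro u
    simp [hf]
  have hf0 : f ≠ 0 := by
    intro h
    have h1 := congrArg (fun p => p.coeff 3) h
    simp [hf, coeff_X, coeff_C] at h1
  obtain ⟨x₀, hx0, hx1, hx2⟩ : ∃ x₀ : ℂ, f.eval x₀ ≠ 0 ∧ f.eval (x₀ - 1) ≠ 0 ∧
      f.eval (x₀ - kap n) ≠ 0 := by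
    have h1 : f * f.comp (X - C 1) * f.comp (X - C (kap n)) ≠ 0 := by
      refine mul_ne_zero (mul_ne_zero hf0 ?_) ?_
      · intro h
        rw [comp_eq_zero_iff] at h
        rcases h with h | ⟨_, h⟩
        · exact hf0 h
        · have := congrArg natDegree h
          rw [natDegree_X_sub_C, natDegree_C] at this
          omega
      · intro h
        rw [comp_eq_zero_iff] at h
        rcases h with h | ⟨_, h⟩
        · exact hf0 h
        · have := congrArg natDegree h
          rw [natDegree_X_sub_C, natDegree_C] at this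
          omega
    obtain ⟨x₀, hx⟩ : ∃ x₀ : ℂ, (f * f.comp (X - C 1) * f.comp (X - C (kap n))).eval x₀ ≠ 0 := by
      by_contra hcon
      push Not at hcon
      exact h1 (Polynomial.funext fun r => by rw [hcon, eval_zero])
    rw [eval_mul, eval_mul, eval_comp, eval_comp, eval_sub, eval_sub, eval_X, eval_C, eval_C] at hx
    exact ⟨x₀, left_ne_zero_of_mul (left_ne_zero_of_mul hx),
      right_ne_zero_of_mul (left_ne_zero_of_mul hx), right_ne_zero_of_mul hx⟩
  rw [hfe] at hx0 hx1 hx2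
  obtain ⟨Y, hY⟩ := arc_aff a b x₀ hx0
  obtain ⟨ι₁, i1, e1⟩ := emb_aff a b (x₀ - 1) hx1
  obtain ⟨ι₂, i2, e2⟩ := emb_aff a b (x₀ - kap n) hx2
  obtain ⟨ι₃, i3, e3⟩ := emb_aff a b x₀ hx0
  have hinj : Function.Injective (algebraMap (PowerSeries ℂ) LF) := IsFractionRing.injective _ _
  set L : QA ℂ a b := ⟨X - C (x₀ - 1), 0⟩ with hL
  set M : QA ℂ a b := ⟨X - C (x₀ - kap n), 0⟩ with hM
  have e3L : ι₃ L = algebraMap (PowerSeries ℂ) LF (1 + PowerSeries.X) := by
    rw [hL, e3, sub_sub_cancel, map_one]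
  have e3M : ι₃ M = algebraMap (PowerSeries ℂ) LF (PowerSeries.C (kap n) + PowerSeries.X) := by
    rw [hM, e3, sub_sub_cancel]
  have hk1 := kap_ne1 hn
  haveI hch0 : CharZero (PowerSeries ℂ) :=
    charZero_of_injective_ringHom (PowerSeries.C_injective (R := ℂ))
  haveI hch : CharZero LF := charZero_of_injective_ringHom hinj
  refine ⟨x₀ - kap n, x₀ - 1, x₀, Y, hY, ?_, ?_⟩
  · apply full_of_loc a b _ _ ι₁ ι₂ ι₃ i1 i2 i3
    · rw [pol_cx hn, tri_mapR, e1, e1, sub_self, map_zero, zero_add]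
      have h1 := tri_one hn PowerSeries.X (PowerSeries.C (x₀ - 1 - (x₀ - kap n)) + PowerSeries.X)
        PowerSeries.order_X (by
          rw [map_add, PowerSeries.constantCoeff_C, PowerSeries.constantCoeff_X, add_zero]
          intro h
          apply hk1
          linear_combination h)
      rw [tri_mapR] at h1
      exact h1
    · rw [pol_cx hn, tri_mapR, e2, e2, sub_self, map_zero, zero_add]
      obtain ⟨c, g, hcg, hg⟩ := tri_two hn
        (PowerSeries.C (x₀ - kap n - (x₀ - 1)) + PowerSeries.X) PowerSeries.X (by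
          rw [map_add, PowerSeries.constantCoeff_C, PowerSeries.constantCoeff_X, add_zero]
          intro h
          apply hk1
          linear_combination - h) PowerSeries.order_X
      refine ⟨algebraMap _ _ c, g.map (algebraMap _ _), ?_, hg⟩
      rw [← tri_mapR, hcg, Polynomial.map_mul, Polynomial.map_sub, map_X, map_C]
    · rw [pol_cx hn, tri_mapR, e3L, e3M]
      obtain ⟨q, c, hqc, hq1, hq2, hq3⟩ := tri_three hn
      refine ⟨n - 2, q.map (algebraMap _ _), fun k => algebraMap _ _ (c k), ?_, hq1.map _, ?_, hq3⟩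
      · rw [← tri_mapR, hqc, Polynomial.map_mul, Polynomial.map_prod]
        simp only [Polynomial.map_sub, map_X, map_C]
      · rw [hq1.natDegree_map, hq2]
    · intro h
      have h1 := congrArg ι₃ h
      rw [pol_cx hn, map_zero, ← resultant_map_map, ← derivative_map, tri_mapR, e3L, e3M, ← tri_mapR,
        derivative_map, resultant_map_map, map_eq_zero_iff _ hinj] at h1
      have h2 := tri_res hn
      rw [h1, PowerSeries.order_zero] at h2
      exact absurd h2 (by simp)
  · have h1 : PowerSeries.C x₀ + PowerSeries.X - PowerSeries.C (x₀ - 1) =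
        (1 + PowerSeries.X : PowerSeries ℂ) := by
      rw [map_sub, map_one]
      ring
    have h2 : PowerSeries.C x₀ + PowerSeries.X - PowerSeries.C (x₀ - kap n) =
        (PowerSeries.C (kap n) + PowerSeries.X : PowerSeries ℂ) := by
      rw [map_sub]
      ring
    rw [h1, h2]
    unfold DFm
    rw [pol_cx hn]
    exact tri_res hn

end Pool.Agent.K9h5.W
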