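import Mathlib
import Pool.Agent.K9h5.W.MainW
import Pool.Agent.K9h5.W.Ex

/-!
# The closed set is proper
-/

set_option autoImplicit false
set_option linter.all false

namespace Pool.Agent.K9h5.W

open Finset Pool.Agent.K9h5 Pool.Agent.K9h5.T

/-- the example in the coordinates of the `j`-th curve -/
noncomputable def Fj {r : ℕ} (n : ℕ) (j : Fin r) (α β : ℂ) (e : ℕ) (k : ℕ) :
    MvPolynomial (Fin r × Fin 3) ℂ :=
  if k = 0 then -(MvPolynomial.X (j, 0) - MvPolynomial.C β * MvPolynomial.X (j, 2)) *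
      MvPolynomial.X (j, 2) ^ (e - 1)
  else if k = n - 1 then
    (MvPolynomial.X (j, 0) - MvPolynomial.C β * MvPolynomial.X (j, 2)) *
      (MvPolynomial.X (j, 0) - MvPolynomial.C α * MvPolynomial.X (j, 2)) *
      MvPolynomial.X (j, 2) ^ (n * e - 2)
  else 0

/-- the example -/
noncomputable def Fx {r : ℕ} (n : ℕ) (j : Fin r) (α β : ℂ) (d : Fin r → ℕ) (k : Fin n) :
    MvPolynomial (Fin r × Fin 3) ℂ :=
  (∏ i ∈ univ.erase j, MvPolynomial.X (i, 2) ^ (((k : ℕ) + 1) * d i)) * Fj n j α β (d j) k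

theorem homog_lin {r : ℕ} (i j : Fin r) (β : ℂ) :
    (MvPolynomial.X (j, 0) - MvPolynomial.C β * MvPolynomial.X (j, 2) :
      MvPolynomial (Fin r × Fin 3) ℂ).IsWeightedHomogeneous (wt i) (if j = i then 1 else 0) := by
  have h1 := MvPolynomial.isWeightedHomogeneous_X ℂ (wt i) ((j, 0) : Fin r × Fin 3)
  have h2 := MvPolynomial.isWeightedHomogeneous_X ℂ (wt i) ((j, 2) : Fin r × Fin 3)
  have h3 := (MvPolynomial.isWeightedHomogeneous_C (wt i) β).mul h2
  rw [zero_add] at h3
  have h4 : (wt i (j, 0)) = if j = i then 1 else 0 := rfl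
  have h5 : (wt i (j, 2)) = if j = i then 1 else 0 := rfl
  rw [h4] at h1
  rw [h5] at h3
  rw [← MvPolynomial.mem_weightedHomogeneousSubmodule] at h1 h3 ⊢
  exact Submodule.sub_mem _ h1 h3

theorem homog_pow {r : ℕ} (i j : Fin r) (e : ℕ) :
    (MvPolynomial.X (j, 2) ^ e : MvPolynomial (Fin r × Fin 3) ℂ).IsWeightedHomogeneous (wt i)
      (e * (if j = i then 1 else 0)) := by
  have h2 := (MvPolynomial.isWeightedHomogeneous_X ℂ (wt i) ((j, 2) : Fin r × Fin 3)).pow e
  exact h2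

theorem Fj_homog {r : ℕ} {n : ℕ} (hn : 2 ≤ n) (i j : Fin r) (α β : ℂ) {e : ℕ} (he : 1 ≤ e)
    (k : Fin n) :
    (Fj n j α β e (k : ℕ)).IsWeightedHomogeneous (wt i)
      ((((k : ℕ) + 1) * e) * (if j = i then 1 else 0)) := by
  unfold Fj
  by_cases h0 : (k : ℕ) = 0
  · rw [if_pos h0, neg_mul]
    have h2 := (homog_lin i j β).mul (homog_pow i j (e - 1))
    rw [← MvPolynomial.mem_weightedHomogeneousSubmodule] at h2 ⊢
    have h3 : ((k : ℕ) + 1) * e * (if j = i then 1 else 0) =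
        (if j = i then 1 else 0) + (e - 1) * (if j = i then 1 else 0) := by
      split_ifs
      · rw [h0]
        omega
      · omega
    rw [h3]
    exact Submodule.neg_mem _ h2
  · rw [if_neg h0]
    by_cases h1 : (k : ℕ) = n - 1
    · rw [if_pos h1]
      have h2 := ((homog_lin i j β).mul (homog_lin i j α)).mul (homog_pow i j (n * e - 2))
      have h3 : ((k : ℕ) + 1) * e * (if j = i then 1 else 0) =
          (if j = i then 1 else 0) + (if j = i then 1 else 0) +
            (n * e - 2) * (if j = i then 1 else 0) := by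
        split_ifs
        · have h4 : 2 ≤ n * e := by nlinarith
          have h5 : (k : ℕ) + 1 = n := by omega
          rw [h5]
          omega
        · omega
      rw [h3]
      exact h2
    · rw [if_neg h1]
      exact MvPolynomial.isWeightedHomogeneous_zero _ _ _

theorem Fx_MH {r : ℕ} {n : ℕ} (hn : 2 ≤ n) (j : Fin r) (α β : ℂ) (d : Fin r → ℕ) (hd : 1 ≤ d j) :
    MH (Fx n j α β d) d := by
  classical
  intro k i
  unfold Fx
  have h1 : (∏ i' ∈ univ.erase j, MvPolynomial.X (i', 2) ^ (((k : ℕ) + 1) * d i') :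
      MvPolynomial (Fin r × Fin 3) ℂ).IsWeightedHomogeneous (wt i)
        (∑ i' ∈ univ.erase j, (((k : ℕ) + 1) * d i') * (if i' = i then 1 else 0)) :=
    MvPolynomial.IsWeightedHomogeneous.prod _ _ _ (fun i' _ => homog_pow i i' _)
  have h2 := h1.mul (Fj_homog hn i j α β hd k)
  have h3 : ((k : ℕ) + 1) * d i = (∑ i' ∈ univ.erase j, (((k : ℕ) + 1) * d i') *
      (if i' = i then 1 else 0)) + (((k : ℕ) + 1) * d j) * (if j = i then 1 else 0) := by
    rw [Finset.sum_erase_add univ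
      (fun i' => (((k : ℕ) + 1) * d i') * (if i' = i then 1 else 0)) (mem_univ j)]
    simp
  rw [h3]
  exact h2

theorem Fx_eval {r : ℕ} {n : ℕ} (j : Fin r) (α β : ℂ) (d : Fin r → ℕ) {T : Type} [CommRing T]
    (κ : ℂ →+* T) (U : Fin r × Fin 3 → T) (hU : ∀ i, U (i, 2) = 1) (k : Fin n) :
    MvPolynomial.eval₂ κ U (Fx n j α β d k) = cx n (U (j, 0) - κ β) (U (j, 0) - κ α) k := by
  classical
  unfold Fx
  rw [MvPolynomial.eval₂_mul, MvPolynomial.eval₂_prod, Finset.prod_eq_one, one_mul]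
  · unfold Fj cx
    split_ifs
    · simp [hU]
    · simp [hU]
    · simp
  · intro i _
    simp [hU]

/-- **An example.** -/
theorem exists_SB {r n : ℕ} (hn : 2 ≤ n) (a b : Fin r → ℤ) (d : Fin r → ℕ) (j : Fin r)
    (hd : 1 ≤ d j) : ∃ F : Fin n → MvPolynomial (Fin r × Fin 3) ℂ, MH F d ∧ SB a b F j := by
  classical
  obtain ⟨α, β, x₀, Y, hY, hfull, hord⟩ := exists_ex hn (a j : ℂ) (b j : ℂ)
  choose y hy using fun i => IsAlgClosed.exists_pow_nat_eq ((b i : ℂ)) (n := 2) (by norm_num)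
  refine ⟨Fx n j α β d, Fx_MH hn j α β d hd, fun i => ![0, y i, 1],
    ![PowerSeries.C x₀ + PowerSeries.X, Y, 1], 1, ?_, ?_, ?_, ?_, ?_, odd_one⟩
  · intro i _
    refine ⟨rfl, ?_⟩
    show y i ^ 2 = 0 ^ 3 + (a i : ℂ) * 0 + b i
    rw [hy]
    ring
  · convert hfull using 2 with k
    rw [Fx_eval]
    · have h0 : gen j (a j : ℂ) (b j : ℂ) (fun i => ![0, y i, 1]) j 0 = qx ℂ _ _ := by
        unfold gen
        rw [if_pos rfl]
        rfl
      have h1 : ∀ u : ℂ, qx ℂ (a j : ℂ) (b j : ℂ) - qc ℂ _ _ u =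
          (⟨Polynomial.X - Polynomial.C u, 0⟩ : QA ℂ (a j : ℂ) (b j : ℂ)) := by
        intro u
        rw [qc_apply]
        unfold qx
        ext1
        · simp
        · simp
      show cx n (gen j (a j : ℂ) (b j : ℂ) (fun i => ![0, y i, 1]) j 0 - _) (gen j (a j : ℂ) (b j : ℂ) (fun i => ![0, y i, 1]) j 0 - _) k = _
      rw [h0, h1, h1]
    · intro i
      show gen j (a j : ℂ) (b j : ℂ) (fun i => ![0, y i, 1]) i 2 = 1
      unfold gen
      split_ifs
      · rfl
      · exact map_one _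
  · intro h
    have h1 := congrFun h 2
    exact one_ne_zero h1
  · show Y ^ 2 * 1 = (PowerSeries.C x₀ + PowerSeries.X) ^ 3 +
      (a j : PowerSeries ℂ) * (PowerSeries.C x₀ + PowerSeries.X) * 1 ^ 2 +
        (b j : PowerSeries ℂ) * 1 ^ 3
    rw [hY, map_intCast, map_intCast]
    ring
  · rw [← hord.trans Nat.cast_one.symm]
    congr 2
    funext k
    rw [Fx_eval]
    · simp
    · intro i
      show (if i = j then _ else _) = _
      split_ifs
      · rfl
      · simp

end Pool.Agent.K9h5.W
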