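import Mathlib
import Pool.Agent.K9h5.W.ExU
import Pool.Agent.K9h5.T.Galn

/-!
# From Galois groups over the function field
-/

set_option autoImplicit false
set_option linter.all false

namespace Pool.Agent.K9h5.W

open Finset Pool.Agent.K9h5 Pool.Agent.K9h5.T WeierstrassCurve Pool.Agent.H901R3.MS

theorem evQ_eval₂ {r : ℕ} {S K : Type} [CommRing S] [CommRing K] (ι : S →+* K) (i₀ : Fin r) (a b : S)
    (V : Fin r → Fin 3 → S) (x y : K) (h : y ^ 2 = x ^ 3 + ι a * x + ι b)
    (F : MvPolynomial (Fin r × Fin 3) S) :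
    evQ ι a b x y h (MvPolynomial.eval₂ (qc S a b) (fun v => gen i₀ a b V v.1 v.2) F) =
      MvPolynomial.eval₂ ι (fun v => if v.1 = i₀ then ![x, y, 1] v.2 else ι (V v.1 v.2)) F := by
  have hc : (evQ ι a b x y h).comp (qc S a b) = ι := by
    refine RingHom.ext fun c => ?_
    rw [RingHom.comp_apply, evQ_apply, qc_apply]
    simp
  rw [MvPolynomial.eval₂_comp_left, hc]
  congr 1
  funext v
  rw [Function.comp_apply]
  unfold gen
  split_ifs
  · generalize v.2 = k
    fin_cases k
    · simp [evQ_apply, qx]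
    · simp [evQ_apply, qy]
    · simp
  · exact congrArg (fun f => f (V v.1 v.2)) hc

theorem discr_order {n : ℕ} (hn : 1 ≤ n) (c : Fin n → PowerSeries ℂ) :
    (DFm c).order = (Polynomial.discr (pol c)).order := by
  have h1 : (pol c).natDegree = n := pol_natDegree c
  have h2 : 0 < (pol c).degree := by
    rw [← Polynomial.natDegree_pos_iff_degree_pos, h1]
    omega
  have h3 := Polynomial.resultant_deriv h2
  rw [h1, (pol_monic c).leadingCoeff, mul_one] at h3
  unfold DFm
  rw [h3]
  rcases neg_one_pow_eq_or (PowerSeries ℂ) (n * (n - 1) / 2) with h | h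
  · rw [h, one_mul]
  · rw [h, neg_one_mul, PowerSeries.order_neg]

/-- the criterion in terms of the Galois group over the function field -/
theorem SB_of_gal {r n : ℕ} (hn : 2 ≤ n) (a b : Fin r → ℤ)
    (F : Fin n → MvPolynomial (Fin r × Fin 3) ℂ) (j : Fin r)
    (V : Fin r → Fin 3 → ℂ) (W : Fin 3 → PowerSeries ℂ) (m : ℕ)
    (haff : ∀ i, i ≠ j → V i 2 = 1 ∧ V i 1 ^ 2 = V i 0 ^ 3 + a i * V i 0 + b i)
    (p : Polynomial ((CV (a j : ℂ) (b j : ℂ)).toAffine.FunctionField))
    (hp : p = pol (fun k => MvPolynomial.aeval (fun v : Fin r × Fin 3 => if v.1 = j then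
      (![algebraMap (CV (a j : ℂ) (b j : ℂ)).toAffine.CoordinateRing
          (CV (a j : ℂ) (b j : ℂ)).toAffine.FunctionField
          (Affine.CoordinateRing.mk (CV (a j : ℂ) (b j : ℂ)).toAffine
            (Polynomial.C Polynomial.X)),
        algebraMap (CV (a j : ℂ) (b j : ℂ)).toAffine.CoordinateRing
          (CV (a j : ℂ) (b j : ℂ)).toAffine.FunctionField
          (Affine.CoordinateRing.mk (CV (a j : ℂ) (b j : ℂ)).toAffine Polynomial.X), 1] :
            Fin 3 → (CV (a j : ℂ) (b j : ℂ)).toAffine.FunctionField) v.2 else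
        algebraMap ℂ (CV (a j : ℂ) (b j : ℂ)).toAffine.FunctionField (V v.1 v.2)) (F k)))
    (hgal : Nat.card p.Gal = n.factorial)
    (hW0 : W ≠ 0) (hWE : W 1 ^ 2 * W 2 = W 0 ^ 3 + (a j : PowerSeries ℂ) * W 0 * W 2 ^ 2 +
      (b j : PowerSeries ℂ) * W 2 ^ 3)
    (hord : (Polynomial.discr (pol (fun k => MvPolynomial.aeval (fun v : Fin r × Fin 3 =>
      if v.1 = j then W v.2 else PowerSeries.C (V v.1 v.2)) (F k)))).order = m) (hm : Odd m) :
    SB a b F j := by
  refine ⟨V, W, m, haff, ?_, hW0, hWE, ?_, hm⟩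
  · refine full_of_gal (a j : ℂ) (b j : ℂ) hn _ p ?_ hgal
    rw [hp]
    congr 1
    funext k
    rw [eFF_apply, eCR_apply, evQ_eval₂, MvPolynomial.eval₂_comp_left, MvPolynomial.aeval_def]
    congr 1
    funext v
    rw [Function.comp_apply]
    by_cases h : v.1 = j
    · rw [if_pos h, if_pos h]
      generalize v.2 = l
      fin_cases l
      · rfl
      · rfl
      · exact (map_one _).symm
    · rw [if_neg h, if_neg h]
      exact IsScalarTower.algebraMap_apply ℂ (CV (a j : ℂ) (b j : ℂ)).toAffine.CoordinateRing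
          (CV (a j : ℂ) (b j : ℂ)).toAffine.FunctionField (V v.1 v.2)
  · rw [discr_order (by omega), ← hord]
    rfl

end Pool.Agent.K9h5.W
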