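import Mathlib
import Pool.Agent.K9h5.W.Loc3
import Pool.Agent.K9h5.W.TriRes

/-!
# Local facts for `w ^ n - L w ^ (n - 1) + L ^ (n - 1) M`
-/

set_option autoImplicit false
set_option linter.all false

namespace Pool.Agent.K9h5.W

open Polynomial Loc3

/-- a double root which does not split -/
theorem tri_three_gen {n : ℕ} (hn : 2 ≤ n) (ℓ μ : PowerSeries ℂ)
    (hne : PowerSeries.constantCoeff μ + kap n * PowerSeries.constantCoeff ℓ ≠
      (((n : ℂ) - 1) / n) ^ (n - 1) * PowerSeries.constantCoeff ℓ) :
    ∃ (q : (PowerSeries ℂ)[X]) (c : Fin (n - 2) → PowerSeries ℂ),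
    tri n (1 + PowerSeries.X * ℓ) (PowerSeries.C (kap n) + PowerSeries.X * μ) =
      q * ∏ k, (X - C (c k)) ∧
    q.Monic ∧ q.natDegree = 2 ∧ Irreducible (q.map (algebraMap (PowerSeries ℂ) LF)) := by
  classical
  obtain ⟨m, rfl⟩ : ∃ m, n = m + 2 := ⟨n - 2, by omega⟩
  set κ := kap (m + 2) with hκ
  set f : (PowerSeries ℂ)[X] := tri (m + 2) (1 + PowerSeries.X * ℓ)
    (PowerSeries.C κ + PowerSeries.X * μ) with hf
  have hfm : f.Monic := tri_monic hn _ _
  have hfd : f.natDegree = m + 2 := tri_natDegree hn _ _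
  -- the reduction
  set F : ℂ[X] := X ^ (m + 2) - X ^ (m + 1) + C κ with hF
  have hmap : f.map PowerSeries.constantCoeff = F := by
    rw [hf, tri_map]
    unfold tri
    simp only [map_add, map_mul, PowerSeries.constantCoeff_C, PowerSeries.constantCoeff_X, map_one,
      zero_mul, map_zero, add_zero, one_mul]
    rw [show m + 2 - 1 = m + 1 from rfl]
  have hFm : F.Monic := by rw [← hmap]; exact hfm.map _
  have hFd : F.natDegree = m + 2 := by rw [← hmap, hfm.natDegree_map, hfd]
  -- the double root
  set N : ℂ := (m : ℂ) + 2 with hN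
  have hN0 : N ≠ 0 := by
    rw [hN]
    have : ((m + 2 : ℕ) : ℂ) ≠ 0 := by exact_mod_cast (by omega : m + 2 ≠ 0)
    push_cast at this
    exact this
  have hN1 : N - 1 ≠ 0 := by
    rw [hN]
    have : ((m + 1 : ℕ) : ℂ) ≠ 0 := by exact_mod_cast (by omega : m + 1 ≠ 0)
    push_cast at this
    intro h
    apply this
    linear_combination h
  set z₀ : ℂ := (N - 1) / N with hz₀
  have hz0 : z₀ ≠ 0 := div_ne_zero hN1 hN0
  have hκ1 : κ = z₀ ^ (m + 1) / N := by
    rw [hκ, hz₀]
    unfold kap
    rw [show m + 2 - 1 = m + 1 from rfl, div_pow]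
    push_cast
    rw [← hN, div_div, ← pow_succ]
  have hκ0 : κ ≠ 0 := by
    rw [hκ1]
    exact div_ne_zero (pow_ne_zero _ hz0) hN0
  have hNz : N * z₀ = N - 1 := by
    rw [hz₀]
    field_simp
  have hFz : F.eval z₀ = 0 := by
    rw [hF]
    simp only [eval_add, eval_sub, eval_pow, eval_X, eval_C]
    rw [hκ1]
    field_simp
    linear_combination z₀ ^ (m + 1) * hNz
  have hF' : derivative F = C N * X ^ m * (X - C z₀) := by
    rw [hF]
    have e1 : (C N * X ^ m * (X - C z₀) : ℂ[X]) = C N * X ^ (m + 1) - C (N * z₀) * X ^ m := by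
      rw [C_mul]
      ring
    rw [e1, hNz]
    simp only [derivative_add, derivative_sub, derivative_X_pow, derivative_C, add_zero]
    rw [hN]
    have e2 : ((m + 2 : ℕ) : ℂ) = (m : ℂ) + 2 := by push_cast; ring
    have e3 : ((m + 1 : ℕ) : ℂ) = (m : ℂ) + 2 - 1 := by push_cast; ring
    rw [show m + 2 - 1 = m + 1 from rfl, show m + 1 - 1 = m from rfl, e2, e3]
  obtain ⟨h₁, hh₁⟩ := dvd_iff_isRoot.2 hFz
  have hh₁z : h₁.eval z₀ = 0 := by
    have h2 := congrArg derivative hh₁
    rw [hF', derivative_mul, derivative_sub, derivative_X, derivative_C, sub_zero, one_mul] at h2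
    have h3 := congrArg (fun p => p.eval z₀) h2
    simp only [eval_mul, eval_add, eval_sub, eval_X, eval_C, sub_self, mul_zero, zero_mul,
      add_zero] at h3
    exact h3.symm
  obtain ⟨h, hh⟩ := dvd_iff_isRoot.2 hh₁z
  have hFh : F = (X - C z₀) ^ 2 * h := by
    rw [hh₁, hh]
    ring
  have hhm : h.Monic := by
    rw [hFh] at hFm
    exact ((monic_X_sub_C z₀).pow 2).of_mul_monic_left hFm
  have hhd : h.natDegree = m := by
    have h1 := hFd
    rw [hFh, ((monic_X_sub_C z₀).pow 2).natDegree_mul hhm, (monic_X_sub_C z₀).natDegree_pow,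
      natDegree_X_sub_C] at h1
    omega
  -- the identity for the derivative
  have hid : 2 * h + (X - C z₀) * derivative h = C N * X ^ m := by
    have h2 := congrArg derivative hFh
    rw [hF', derivative_mul, derivative_pow, derivative_sub, derivative_X, derivative_C,
      sub_zero, mul_one] at h2
    have h3 : (X - C z₀) * (2 * h + (X - C z₀) * derivative h) = (X - C z₀) * (C N * X ^ m) := by
      push_cast at h2
      simp only [map_ofNat] at h2
      linear_combination -h2
    exact mul_left_cancel₀ (X_sub_C_ne_zero z₀) h3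
  have hroot : ∀ a : ℂ, h.eval a = 0 → a ≠ z₀ ∧ (derivative h).eval a ≠ 0 ∧ a ≠ 0 := by
    intro a ha
    have ha0 : a ≠ 0 := by
      rintro rfl
      have h2 : F.eval 0 = 0 := by rw [hFh, eval_mul, ha, mul_zero]
      rw [hF] at h2
      simp only [eval_add, eval_sub, eval_pow, eval_X, eval_C] at h2
      rw [zero_pow (by omega), zero_pow (by omega)] at h2
      apply hκ0
      linear_combination h2
    have h3 := congrArg (fun p => p.eval a) hid
    simp only [eval_add, eval_mul, eval_sub, eval_X, eval_C, eval_pow, ha, mul_zero, zero_add] at h3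
    have h4 : N * a ^ m ≠ 0 := mul_ne_zero hN0 (pow_ne_zero _ ha0)
    rw [← h3] at h4
    exact ⟨sub_ne_zero.1 (left_ne_zero_of_mul h4), right_ne_zero_of_mul h4, ha0⟩
  obtain ⟨r, hr⟩ := roots_fin h hhm m hhd
  have hrr : ∀ j, h.eval (r j) = 0 := by
    intro j
    rw [hr, eval_prod, Finset.prod_eq_zero (Finset.mem_univ j)]
    rw [eval_sub, eval_X, eval_C, sub_self]
  have hsep : h.Separable := by
    show IsCoprime h (derivative h)
    refine (Polynomial.isCoprime_iff_aeval_ne_zero_of_isAlgClosed ℂ ℂ h (derivative h)).2 ?_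
    intro a
    have e : ∀ p : ℂ[X], aeval a p = p.eval a := fun p => congrFun (coe_aeval_eq_eval a) p
    by_cases ha : h.eval a = 0
    · right
      rw [e]
      exact (hroot a ha).2.1
    · left
      rw [e]
      exact ha
  have hinj : Function.Injective r := by
    rw [hr, separable_prod_X_sub_C_iff] at hsep
    exact hsep
  -- the roots of `f`
  have hlift : ∀ j, ∃ z : PowerSeries ℂ, f.eval z = 0 ∧ PowerSeries.constantCoeff z = r j := by
    intro j
    obtain ⟨k1, k2, k3⟩ := hroot (r j) (hrr j)
    apply hens f hfm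
    · rw [hmap, hFh, eval_mul, hrr j, mul_zero]
    · rw [hmap, hF']
      simp only [eval_mul, eval_C, eval_pow, eval_X, eval_sub]
      exact mul_ne_zero (mul_ne_zero hN0 (pow_ne_zero _ k3)) (sub_ne_zero.2 k1)
  choose c hc hcr using hlift
  have hdvd : (∏ j, (X - C (c j))) ∣ f := by
    apply Finset.prod_dvd_of_coprime
    · intro i _ j _ hij
      show IsCoprime (X - C (c i)) (X - C (c j))
      apply isCoprime_X_sub_C_of_isUnit_sub
      rw [PowerSeries.isUnit_iff_constantCoeff, map_sub, hcr, hcr]
      exact isUnit_iff_ne_zero.2 (sub_ne_zero.2 fun h => hij (hinj h))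
    · intro j _
      rw [dvd_iff_isRoot]
      exact hc j
  have hpm : (∏ j, (X - C (c j))).Monic := monic_prod_of_monic _ _ fun s _ => monic_X_sub_C _
  obtain ⟨q, hq⟩ := hdvd
  have hqm : q.Monic := by
    rw [hq] at hfm
    exact hpm.of_mul_monic_left hfm
  have hqd : q.natDegree = 2 := by
    have h1 := hfd
    rw [hq, hpm.natDegree_mul hqm, natDegree_finset_prod_X_sub_C_eq_card, Finset.card_univ,
      Fintype.card_fin] at h1
    omega
  have hqmap : q.map PowerSeries.constantCoeff = (X - C z₀) ^ 2 := by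
    have h1 := hmap
    rw [hq, Polynomial.map_mul, Polynomial.map_prod, hFh] at h1
    have h2 : ∏ i, Polynomial.map PowerSeries.constantCoeff (X - C (c i)) = h := by
      rw [hr]
      refine Finset.prod_congr rfl fun j _ => ?_
      rw [Polynomial.map_sub, map_X, map_C, hcr]
    rw [h2, mul_comm] at h1
    exact mul_right_cancel₀ hhm.ne_zero h1
  refine ⟨q, c, ?_, hqm, hqd, ?_⟩
  · exact hq.trans (mul_comm _ _)
  · rw [← Monic.irreducible_iff_irreducible_map_fraction_map (K := LF) hqm,
      hqm.irreducible_iff_roots_eq_zero_of_degree_le_three (by omega) (by omega),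
      Multiset.eq_zero_iff_forall_notMem]
    intro z hz
    rw [mem_roots hqm.ne_zero] at hz
    have hz1 : q.eval z = 0 := hz
    have hzc : PowerSeries.constantCoeff z = z₀ := by
      have h1 := cc_eval q z
      rw [hz1, map_zero, hqmap] at h1
      simp only [eval_pow, eval_sub, eval_X, eval_C] at h1
      have h2 := pow_eq_zero_iff (two_ne_zero) |>.1 h1.symm
      exact sub_eq_zero.1 h2
    have hfz : f.eval z = 0 := by rw [hq, eval_mul, hz1, mul_zero]
    obtain ⟨v, hv⟩ : ∃ v : PowerSeries ℂ, z - PowerSeries.C z₀ = PowerSeries.X * v := by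
      have h1 : PowerSeries.X ∣ z - PowerSeries.C z₀ := by
        rw [PowerSeries.X_dvd_iff, map_sub, hzc, PowerSeries.constantCoeff_C, sub_self]
      exact h1
    -- the value of `F` at `z`
    have hFz2 : z ^ (m + 2) - z ^ (m + 1) + PowerSeries.C κ =
        (PowerSeries.X * v) ^ 2 * (h.map PowerSeries.C).eval z := by
      have h1 := congrArg (fun p => (p.map (PowerSeries.C (R := ℂ))).eval z) hFh
      simp only [hF, Polynomial.map_add, Polynomial.map_sub, Polynomial.map_pow, Polynomial.map_mul,
        map_X, map_C, eval_add, eval_sub, eval_pow, eval_X, eval_C, eval_mul] at h1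
      rw [h1, hv]
    have hfe : f.eval z = (z ^ (m + 2) - z ^ (m + 1) + PowerSeries.C κ) +
        PowerSeries.X * (μ + PowerSeries.C κ * ℓ + PowerSeries.X * ℓ * μ - ℓ * z ^ (m + 1)) := by
      rw [hf]
      unfold tri
      simp only [eval_add, eval_sub, eval_pow, eval_X, eval_C, eval_mul]
      rw [show m + 2 - 1 = m + 1 from rfl]
      ring
    rw [hfz, hFz2] at hfe
    have h5 : PowerSeries.X * (PowerSeries.X * v ^ 2 * (h.map PowerSeries.C).eval z +
        (μ + PowerSeries.C κ * ℓ + PowerSeries.X * ℓ * μ - ℓ * z ^ (m + 1))) = 0 := by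
      linear_combination -hfe
    have h6 := (mul_eq_zero.1 h5).resolve_left PowerSeries.X_ne_zero
    have h7 := congrArg PowerSeries.constantCoeff h6
    simp only [map_add, map_sub, map_mul, map_pow, map_one, PowerSeries.constantCoeff_X,
      PowerSeries.constantCoeff_C, hzc, zero_mul, zero_add, add_zero, map_zero] at h7
    apply hne
    rw [show m + 2 - 1 = m + 1 from rfl]
    have h8 : ((m + 2 : ℕ) : ℂ) = N := by
      rw [hN]
      push_cast
      ring
    rw [h8, ← hz₀]
    linear_combination h7

/-- totally ramified -/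
theorem tri_one' {n : ℕ} (hn : 2 ≤ n) (L M : PowerSeries ℂ) (hL : L.order = 1)
    (hM : PowerSeries.constantCoeff M ≠ 0) :
    Irreducible ((X ^ n - C L * X ^ (n - 1) + C (L ^ (n - 1) * M) :
      (PowerSeries ℂ)[X]).map (algebraMap (PowerSeries ℂ) LF)) := by
  classical
  set ρ := algebraMap (PowerSeries ℂ) LF with hρ
  have hinj : Function.Injective ρ := IsFractionRing.injective _ _
  have hMu : IsUnit M := by
    rw [PowerSeries.isUnit_iff_constantCoeff]
    exact isUnit_iff_ne_zero.2 hM
  obtain ⟨M', hM'⟩ := hMu.exists_right_inv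
  have hL0 : L ≠ 0 := by
    rintro rfl
    rw [PowerSeries.order_zero] at hL
    exact absurd hL (by simp)
  have hM0 : M ≠ 0 := hMu.ne_zero
  have hM'0 : PowerSeries.constantCoeff M' ≠ 0 := by
    intro h
    have h1 := congrArg PowerSeries.constantCoeff hM'
    rw [map_mul, h, mul_zero, map_one] at h1
    exact zero_ne_one h1
  -- the reversed polynomial
  set e : (PowerSeries ℂ)[X] := X ^ n + (-(C (L * M') * X) + C (L * M')) with he
  have hdeg : (-(C (L * M') * X) + C (L * M') : (PowerSeries ℂ)[X]).degree < (n : ℕ) := by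
    refine (degree_add_le _ _).trans_lt (max_lt ?_ ?_)
    · rw [degree_neg]
      refine (degree_C_mul_X_le _).trans_lt ?_
      exact_mod_cast (by omega : 1 < n)
    · refine degree_C_le.trans_lt ?_
      exact_mod_cast (by omega : 0 < n)
  have hem : e.Monic := monic_X_pow_add hdeg
  have hed : e.natDegree = n := by
    rw [natDegree_eq_of_degree_eq_some]
    rw [he, degree_add_eq_left_of_degree_lt]
    · exact degree_X_pow n
    · rw [degree_X_pow]
      exact hdeg
  have heirr : Irreducible (e.map ρ) := by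
    refine eis e n (by omega) hem hed ?_ ?_
    · rw [he]
      simp only [Polynomial.map_add, Polynomial.map_neg, Polynomial.map_mul, Polynomial.map_pow,
        map_X, map_C, map_mul, cc_of_order_one hL, zero_mul, map_zero, C_0, neg_zero, add_zero]
    · rw [he, coeff_add, coeff_add, coeff_X_pow, if_neg (by omega), coeff_neg, coeff_C_mul,
        coeff_X_zero, mul_zero, neg_zero, zero_add, zero_add, coeff_C_zero, PowerSeries.order_mul,
        hL, order_zero hM'0, add_zero]
  -- the polynomial
  set f : (PowerSeries ℂ)[X] := X ^ n - C L * X ^ (n - 1) + C (L ^ (n - 1) * M) with hf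
  have hff : f = X ^ n + (-(C L * X ^ (n - 1)) + C (L ^ (n - 1) * M)) := by
    rw [hf]; ring
  have hfdeg : (-(C L * X ^ (n - 1)) + C (L ^ (n - 1) * M) : (PowerSeries ℂ)[X]).degree <
      (n : ℕ) := by
    refine (degree_add_le _ _).trans_lt (max_lt ?_ ?_)
    · rw [degree_neg]
      refine (degree_C_mul_X_pow_le _ _).trans_lt ?_
      exact_mod_cast (by omega : n - 1 < n)
    · refine degree_C_le.trans_lt ?_
      exact_mod_cast (by omega : 0 < n)
  have hfm : f.Monic := by
    rw [hff]
    exact monic_X_pow_add hfdeg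
  have hfd : f.natDegree = n := by
    rw [natDegree_eq_of_degree_eq_some]
    rw [hff, degree_add_eq_left_of_degree_lt]
    · exact degree_X_pow n
    · rw [degree_X_pow]
      exact hfdeg
  have hfmd : (f.map ρ).natDegree = n := by rw [hfm.natDegree_map, hfd]
  obtain ⟨w, hw⟩ := IsAlgClosed.exists_aeval_eq_zero (AlgebraicClosure LF) (f.map ρ) (by
    intro h
    have h1 : (f.map ρ).natDegree = 0 := natDegree_eq_zero_iff_degree_le_zero.2 h.le
    rw [hfmd] at h1
    omega)
  set α := algebraMap LF (AlgebraicClosure LF) with hα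
  have hw' : w ^ n - α (ρ L) * w ^ (n - 1) + α (ρ L) ^ (n - 1) * α (ρ M) = 0 := by
    rw [hf] at hw
    simp only [Polynomial.map_add, Polynomial.map_sub, Polynomial.map_mul, Polynomial.map_pow,
      map_X, map_C, map_mul, map_pow, map_add, map_sub, aeval_X, aeval_C] at hw
    exact hw
  have hαL : α (ρ L) ≠ 0 := by
    rw [Ne, map_eq_zero_iff _ α.injective, map_eq_zero_iff _ hinj]
    exact hL0
  have hαM : α (ρ M) ≠ 0 := by
    rw [Ne, map_eq_zero_iff _ α.injective, map_eq_zero_iff _ hinj]
    exact hM0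
  have hαM' : α (ρ M) * α (ρ M') = 1 := by
    rw [← map_mul, ← map_mul, hM', map_one, map_one]
  have hw0 : w ≠ 0 := by
    rintro rfl
    rw [zero_pow (by omega), zero_pow (by omega), mul_zero, sub_zero, zero_add] at hw'
    exact mul_ne_zero (pow_ne_zero _ hαL) hαM hw'
  set t := α (ρ L) / w with ht
  have hte : aeval t (e.map ρ) = 0 := by
    rw [he]
    simp only [Polynomial.map_add, Polynomial.map_neg, Polynomial.map_mul, Polynomial.map_pow,
      map_X, map_C, map_mul, map_pow, map_add, map_neg, aeval_X, aeval_C]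
    show t ^ n + (-(α (ρ L) * α (ρ M') * t) + α (ρ L) * α (ρ M')) = 0
    have h1 : t * w = α (ρ L) := div_mul_cancel₀ _ hw0
    have h2 : (t ^ n + (-(α (ρ L) * α (ρ M') * t) + α (ρ L) * α (ρ M'))) * w ^ n =
        α (ρ L) * α (ρ M') * (w ^ n - α (ρ L) * w ^ (n - 1) + α (ρ L) ^ (n - 1) * α (ρ M)) := by
      have h3 : w ^ n = w ^ (n - 1) * w := by rw [← pow_succ]; congr 1; omega
      have h4 : t ^ n * w ^ n = α (ρ L) ^ (n - 1) * α (ρ L) := by
        rw [← mul_pow, h1, ← pow_succ]; congr 1; omega
      have h5 : t * w ^ n = α (ρ L) * w ^ (n - 1) := by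
        rw [h3, ← h1]; ring
      linear_combination h4 - α (ρ L) * α (ρ M') * h5 -
        α (ρ L) ^ (n - 1) * α (ρ L) * hαM'
    rw [hw', mul_zero] at h2
    exact (mul_eq_zero.1 h2).resolve_right (pow_ne_zero _ hw0)
  have hmt : (minpoly LF t).natDegree = n := by
    rw [← minpoly.eq_of_irreducible_of_monic heirr hte (hem.map _), hem.natDegree_map, hed]
  have hti : IsIntegral LF t := ⟨e.map ρ, hem.map _, hte⟩
  have hwi : IsIntegral LF w := ⟨f.map ρ, hfm.map _, hw⟩
  have ht0 : t ≠ 0 := div_ne_zero hαL hw0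
  have hadj : IntermediateField.adjoin LF {w} = IntermediateField.adjoin LF {t} := by
    apply le_antisymm
    · rw [IntermediateField.adjoin_simple_le_iff]
      have h1 : w = α (ρ L) / t := by
        rw [ht, div_div_cancel₀ hαL]
      rw [h1]
      exact div_mem (IntermediateField.algebraMap_mem _ _)
        (IntermediateField.mem_adjoin_simple_self LF t)
    · rw [IntermediateField.adjoin_simple_le_iff]
      exact div_mem (IntermediateField.algebraMap_mem _ _)
        (IntermediateField.mem_adjoin_simple_self LF w)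
  have hmw : (minpoly LF w).natDegree = n := by
    rw [← IntermediateField.adjoin.finrank hwi, hadj, IntermediateField.adjoin.finrank hti, hmt]
  have hdvd : minpoly LF w ∣ f.map ρ := minpoly.dvd LF w hw
  have heq : f.map ρ = minpoly LF w :=
    eq_of_monic_of_dvd_of_natDegree_le (minpoly.monic hwi) (hfm.map _) hdvd
      (by rw [hfmd, hmw])
  rw [heq]
  exact minpoly.irreducible hwi

/-- the discriminant -/
theorem tri_res' {n : ℕ} (hn : 2 ≤ n) (L M : PowerSeries ℂ) (hL : PowerSeries.constantCoeff L ≠ 0)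
    (hM : PowerSeries.constantCoeff M ≠ 0)
    (h1 : (M - PowerSeries.C (kap n) * L).order = 1) :
    (resultant (tri n L (L ^ (n - 2) * M)) (derivative (tri n L (L ^ (n - 2) * M))) n
        (n - 1)).order = 1 := by
  rw [tri_res_eq hn]
  have hL0 : L.order = 0 := order_zero hL
  have hM0 : M.order = 0 := order_zero hM
  have hn1 : ((n : ℕ) : PowerSeries ℂ).order = 0 := by
    apply order_of_coeff
    have : ((n : ℕ) : PowerSeries ℂ) = PowerSeries.C (n : ℂ) := by simp
    rw [this]
    simp
    omega
  have hm1 : (-1 : PowerSeries ℂ).order = 0 := by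
    apply order_of_coeff
    simp
  have hD : L ^ (n - 2) * M - algebraMap ℂ (PowerSeries ℂ) (kap n) * L ^ (n - 1) =
      L ^ (n - 2) * (M - PowerSeries.C (kap n) * L) := by
    have ha : algebraMap ℂ (PowerSeries ℂ) (kap n) = PowerSeries.C (kap n) := rfl
    have h2 : L ^ (n - 1) = L ^ (n - 2) * L := by rw [← pow_succ]; congr 1; omega
    rw [ha, h2]
    ring
  rw [hD]
  simp only [PowerSeries.order_mul, order_pow0 hL0, order_pow0 hn1, order_pow0 hm1, hL0, hM0, h1,
    PowerSeries.order_pow, mul_zero, zero_add, smul_zero, add_zero, nsmul_zero]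

end Pool.Agent.K9h5.W
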