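import Mathlib
import Pool.Agent.K9h5.W.Ex
import Pool.Agent.K9h5.W.Loc4

/-!
# The cover `w ^ n - L w ^ (n - 1) + L ^ (n - 1) M`
-/

set_option autoImplicit false
set_option linter.all false

namespace Pool.Agent.K9h5.W

open Polynomial Finset Pool.Agent.K9h5 Pool.Agent.K9h5.T

/-- the coefficients -/
def cy {R : Type} [CommRing R] (n : ℕ) (L M : R) : Fin n → R := cx n L (L ^ (n - 2) * M)

theorem pol_cy {R : Type} [CommRing R] {n : ℕ} (hn : 2 ≤ n) (L M : R) :
    pol (cy n L M) = tri n L (L ^ (n - 2) * M) := pol_cx hn L _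

theorem one_add_pow (m : ℕ) : ∃ s : PowerSeries ℂ, (1 + PowerSeries.X : PowerSeries ℂ) ^ m =
    1 + PowerSeries.X * s ∧ PowerSeries.constantCoeff s = m := by
  induction m with
  | zero => exact ⟨0, by simp, by simp⟩
  | succ m ih =>
    obtain ⟨s, h1, h2⟩ := ih
    refine ⟨s + 1 + PowerSeries.X * s, ?_, ?_⟩
    · rw [pow_succ, h1]
      ring
    · simp [h2]

/-- **The example.** -/
theorem exists_ey {n : ℕ} (hn : 2 ≤ n) (a b : ℂ) : ∃ (α β x₀ : ℂ) (Y : PowerSeries ℂ),
    Y ^ 2 = (PowerSeries.C x₀ + PowerSeries.X) ^ 3 +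
      PowerSeries.C a * (PowerSeries.C x₀ + PowerSeries.X) + PowerSeries.C b ∧
    Full1 a b (cy n (⟨X - C β, 0⟩ : QA ℂ a b) (⟨X - C α, 0⟩ : QA ℂ a b)) ∧
    (DFm (cy n (PowerSeries.C x₀ + PowerSeries.X - PowerSeries.C β)
      (PowerSeries.C x₀ + PowerSeries.X - PowerSeries.C α))).order = 1 := by
  classical
  -- the choice of the points
  set f : ℂ[X] := X ^ 3 + C a * X + C b with hf
  have hfe : ∀ u : ℂ, f.eval u = u ^ 3 + a * u + b := by
    intro u
    simp [hf]
  have hf0 : f ≠ 0 := by
    intro h
    have h1 := congrArg (fun p => p.coeff 3) h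
    simp [hf, coeff_X, coeff_C] at h1
  obtain ⟨x₀, hx0, hx1, hx2⟩ : ∃ x₀ : ℂ, f.eval x₀ ≠ 0 ∧ f.eval (x₀ - 1) ≠ 0 ∧
      f.eval (x₀ - kap n) ≠ 0 := by
    have h1 : f * f.comp (X - C 1) * f.comp (X - C (kap n)) ≠ 0 := by
      refine mul_ne_zero (mul_ne_zero hf0 ?_) ?_
      · intro h
        rw [comp_eq_zero_iff] at h
        rcases h with h | ⟨_, h⟩
        · exact hf0 h
        · have := congrArg natDegree h
          rw [natDegree_X_sub_C, natDegree_C] at this
          omega
      · intro h
        rw [comp_eq_zero_iff] at h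
        rcases h with h | ⟨_, h⟩
        · exact hf0 h
        · have := congrArg natDegree h
          rw [natDegree_X_sub_C, natDegree_C] at this
          omega
    obtain ⟨x₀, hx⟩ : ∃ x₀ : ℂ, (f * f.comp (X - C 1) * f.comp (X - C (kap n))).eval x₀ ≠ 0 := by
      by_contra hcon
      push Not at hcon
      exact h1 (Polynomial.funext fun r => by rw [hcon, eval_zero])
    rw [eval_mul, eval_mul, eval_comp, eval_comp, eval_sub, eval_sub, eval_X, eval_C, eval_C] at hx
    exact ⟨x₀, left_ne_zero_of_mul (left_ne_zero_of_mul hx),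
      right_ne_zero_of_mul (left_ne_zero_of_mul hx), right_ne_zero_of_mul hx⟩
  rw [hfe] at hx0 hx1 hx2
  obtain ⟨Y, hY⟩ := arc_aff a b x₀ hx0
  obtain ⟨ι₁, i1, e1⟩ := emb_aff a b (x₀ - 1) hx1
  obtain ⟨ι₂, i2, e2⟩ := emb_aff a b (x₀ - kap n) hx2
  obtain ⟨ι₃, i3, e3⟩ := emb_aff a b x₀ hx0
  have hinj : Function.Injective (algebraMap (PowerSeries ℂ) LF) := IsFractionRing.injective _ _
  set L : QA ℂ a b := ⟨X - C (x₀ - 1), 0⟩ with hL
  set M : QA ℂ a b := ⟨X - C (x₀ - kap n), 0⟩ with hM
  have e3L : ι₃ L = algebraMap (PowerSeries ℂ) LF (1 + PowerSeries.X) := by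
    rw [hL, e3, sub_sub_cancel, map_one]
  have e3M : ι₃ M = algebraMap (PowerSeries ℂ) LF (PowerSeries.C (kap n) + PowerSeries.X) := by
    rw [hM, e3, sub_sub_cancel]
  have hk1 := kap_ne1 hn
  haveI hch0 : CharZero (PowerSeries ℂ) :=
    charZero_of_injective_ringHom (PowerSeries.C_injective (R := ℂ))
  haveI hch : CharZero LF := charZero_of_injective_ringHom hinj
  have hres : (resultant (tri n (1 + PowerSeries.X) ((1 + PowerSeries.X) ^ (n - 2) *
      (PowerSeries.C (kap n) + PowerSeries.X))) (derivative (tri n (1 + PowerSeries.X)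
      ((1 + PowerSeries.X) ^ (n - 2) * (PowerSeries.C (kap n) + PowerSeries.X)))) n
        (n - 1)).order = 1 := by
    apply tri_res' hn
    · simp
    · simp [kap_ne hn]
    · have h1 : (PowerSeries.C (kap n) + PowerSeries.X - PowerSeries.C (kap n) *
          (1 + PowerSeries.X) : PowerSeries ℂ) = PowerSeries.C (1 - kap n) * PowerSeries.X := by
        rw [map_sub, map_one]
        ring
      rw [h1, PowerSeries.order_mul, PowerSeries.order_X, order_of_coeff, zero_add]
      rw [PowerSeries.coeff_zero_C]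
      intro h
      apply hk1
      linear_combination -h
  refine ⟨x₀ - kap n, x₀ - 1, x₀, Y, hY, ?_, ?_⟩
  · apply full_of_loc a b _ _ ι₁ ι₂ ι₃ i1 i2 i3
    · rw [pol_cy hn, tri_mapR, map_mul, map_pow, e1, e1, sub_self, map_zero, zero_add]
      have h1 := tri_one' hn PowerSeries.X (PowerSeries.C (x₀ - 1 - (x₀ - kap n)) + PowerSeries.X)
        PowerSeries.order_X (by
          rw [map_add, PowerSeries.constantCoeff_C, PowerSeries.constantCoeff_X, add_zero]
          intro h
          apply hk1
          linear_combination h)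
      convert h1 using 1
      unfold tri
      simp only [Polynomial.map_add, Polynomial.map_sub, Polynomial.map_mul, Polynomial.map_pow,
        map_X, map_C, map_mul, map_pow]
      have h2 : ∀ u v : LF, u * (u ^ (n - 2) * v) = u ^ (n - 1) * v := by
        intro u v
        rw [← mul_assoc, ← pow_succ']
        congr 2
        omega
      rw [← map_pow, ← map_mul, ← map_mul, h2, map_mul, map_pow]
    · rw [pol_cy hn, tri_mapR, map_mul, map_pow, e2, e2, sub_self, map_zero, zero_add, ← map_pow,
        ← map_mul]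
      have hLc : PowerSeries.constantCoeff
          (PowerSeries.C (x₀ - kap n - (x₀ - 1)) + PowerSeries.X : PowerSeries ℂ) ≠ 0 := by
        rw [map_add, PowerSeries.constantCoeff_C, PowerSeries.constantCoeff_X, add_zero]
        intro h
        apply hk1
        linear_combination - h
      obtain ⟨c, g, hcg, hg⟩ := tri_two hn
        (PowerSeries.C (x₀ - kap n - (x₀ - 1)) + PowerSeries.X)
        ((PowerSeries.C (x₀ - kap n - (x₀ - 1)) + PowerSeries.X) ^ (n - 2) * PowerSeries.X) hLc (by
          rw [PowerSeries.order_mul, PowerSeries.order_X, order_pow0 (Loc3.order_zero hLc),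
            zero_add])
      refine ⟨algebraMap _ _ c, g.map (algebraMap _ _), ?_, hg⟩
      rw [← tri_mapR, hcg, Polynomial.map_mul, Polynomial.map_sub, map_X, map_C]
    · rw [pol_cy hn, tri_mapR, map_mul, map_pow, e3L, e3M, ← map_pow, ← map_mul]
      obtain ⟨s, hs1, hs2⟩ := one_add_pow (n - 2)
      obtain ⟨q, c, hqc, hq1, hq2, hq3⟩ := tri_three_gen hn 1
        (1 + PowerSeries.C (kap n) * s + PowerSeries.X * s) (by
          simp only [map_add, map_mul, map_one, PowerSeries.constantCoeff_C,
            PowerSeries.constantCoeff_X, zero_mul, add_zero, mul_one, hs2]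
          intro h
          apply hk1
          have hn0 : (n : ℂ) ≠ 0 := by exact_mod_cast (by omega : n ≠ 0)
          have h2 : (((n : ℂ) - 1) / n) ^ (n - 1) = n * kap n := by
            unfold kap
            rw [div_pow]
            have h3 : (n : ℂ) ^ n = (n : ℂ) ^ (n - 1) * n := by
              rw [← pow_succ]; congr 1; omega
            rw [h3]
            field_simp
          rw [h2, Nat.cast_sub hn] at h
          push_cast at h
          linear_combination -h)
      have hM' : (1 + PowerSeries.X : PowerSeries ℂ) ^ (n - 2) *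
          (PowerSeries.C (kap n) + PowerSeries.X) = PowerSeries.C (kap n) + PowerSeries.X *
            (1 + PowerSeries.C (kap n) * s + PowerSeries.X * s) := by
        rw [hs1]
        ring
      rw [mul_one] at hqc
      refine ⟨n - 2, q.map (algebraMap _ _), fun k => algebraMap _ _ (c k), ?_, hq1.map _, ?_, hq3⟩
      · rw [← tri_mapR, hM', hqc, Polynomial.map_mul, Polynomial.map_prod]
        simp only [Polynomial.map_sub, map_X, map_C]
      · rw [hq1.natDegree_map, hq2]
    · intro h
      have h1 := congrArg ι₃ h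
      rw [pol_cy hn, map_zero, ← resultant_map_map, ← derivative_map, tri_mapR, map_mul, map_pow,
        e3L, e3M, ← map_pow, ← map_mul, ← tri_mapR,
        derivative_map, resultant_map_map, map_eq_zero_iff _ hinj] at h1
      rw [h1, PowerSeries.order_zero] at hres
      exact absurd hres (by simp)
  · have h1 : PowerSeries.C x₀ + PowerSeries.X - PowerSeries.C (x₀ - 1) =
        (1 + PowerSeries.X : PowerSeries ℂ) := by
      rw [map_sub, map_one]
      ring
    have h2 : PowerSeries.C x₀ + PowerSeries.X - PowerSeries.C (x₀ - kap n) =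
        (PowerSeries.C (kap n) + PowerSeries.X : PowerSeries ℂ) := by
      rw [map_sub]
      ring
    rw [h1, h2]
    unfold DFm
    rw [pol_cy hn]
    exact hres

end Pool.Agent.K9h5.W
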