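import Mathlib
import Pool.Agent.K9h5.W.UnivP
import Pool.Agent.K9h5.W.ExU
import Pool.Agent.K9h5.W.Ex4

/-!
# The closed set is proper, for hypersurfaces
-/

set_option autoImplicit false
set_option linter.all false

namespace Pool.Agent.K9h5.W

open Finset Pool.Agent.K9h5 Pool.Agent.K9h5.T

/-- the linear form -/
noncomputable def lf {r : ℕ} (j : Fin r) (β : ℂ) : MvPolynomial (Fin r × Fin 3) ℂ :=
  MvPolynomial.X (j, 0) - MvPolynomial.C β * MvPolynomial.X (j, 2)

/-- the example in the coordinates of the `j`-th curve -/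
noncomputable def Gj {r : ℕ} (n : ℕ) (j : Fin r) (α β : ℂ) (c d : ℕ) (k : ℕ) :
    MvPolynomial (Fin r × Fin 3) ℂ :=
  if k = 0 then (if d = 0 then 1 else lf j β * MvPolynomial.X (j, 2) ^ (d - 1))
  else if k = 1 then -(lf j β * MvPolynomial.X (j, 2) ^ (d + c - 1))
  else if k = n then (if d = 0 then lf j β ^ (n - 1) * lf j α * MvPolynomial.X (j, 2) ^ (n * c - n)
    else lf j α * MvPolynomial.X (j, 2) ^ (d + n * c - 1))
  else 0

/-- the example -/
noncomputable def Gx {r : ℕ} (n : ℕ) (j : Fin r) (α β : ℂ) (c d : Fin r → ℕ) (k : Fin (n + 1)) :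
    MvPolynomial (Fin r × Fin 3) ℂ :=
  (∏ i ∈ univ.erase j, MvPolynomial.X (i, 2) ^ (d i + (k : ℕ) * c i)) *
    Gj n j α β (c j) (d j) k

theorem lf_homog {r : ℕ} (i j : Fin r) (β : ℂ) :
    (lf j β).IsWeightedHomogeneous (wt i) (if j = i then 1 else 0) := homog_lin i j β

theorem Gj_homog {r : ℕ} {n : ℕ} (hn : 2 ≤ n) (i j : Fin r) (α β : ℂ) {c d : ℕ} (hcd : 1 ≤ c + d)
    (k : ℕ) :
    (Gj n j α β c d k).IsWeightedHomogeneous (wt i) ((d + k * c) * (if j = i then 1 else 0)) := by
  unfold Gj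
  by_cases h0 : k = 0
  · rw [if_pos h0]
    by_cases hd : d = 0
    · rw [if_pos hd, h0, hd]
      simp only [zero_mul, add_zero]
      exact MvPolynomial.isWeightedHomogeneous_one _ _
    · rw [if_neg hd]
      have h2 := (lf_homog i j β).mul (homog_pow i j (d - 1))
      have h3 : (d + k * c) * (if j = i then 1 else 0) =
          (if j = i then 1 else 0) + (d - 1) * (if j = i then 1 else 0) := by
        split_ifs
        · rw [h0]; omega
        · omega
      rw [h3]
      exact h2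
  · rw [if_neg h0]
    by_cases h1 : k = 1
    · rw [if_pos h1]
      have h2 := (lf_homog i j β).mul (homog_pow i j (d + c - 1))
      rw [← MvPolynomial.mem_weightedHomogeneousSubmodule] at h2 ⊢
      have h3 : (d + k * c) * (if j = i then 1 else 0) =
          (if j = i then 1 else 0) + (d + c - 1) * (if j = i then 1 else 0) := by
        split_ifs
        · rw [h1]; omega
        · omega
      rw [h3]
      exact Submodule.neg_mem _ h2
    · rw [if_neg h1]
      by_cases h2 : k = n
      · rw [if_pos h2]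
        by_cases hd : d = 0
        · rw [if_pos hd]
          have hc : 1 ≤ c := by omega
          have h4 := (((lf_homog i j β).pow (n - 1)).mul (lf_homog i j α)).mul
            (homog_pow i j (n * c - n))
          have h3 : (d + k * c) * (if j = i then 1 else 0) =
              (n - 1) • (if j = i then 1 else 0) + (if j = i then 1 else 0) +
                (n * c - n) * (if j = i then 1 else 0) := by
            split_ifs
            · rw [h2, hd, smul_eq_mul]
              have h5 : n ≤ n * c := Nat.le_mul_of_pos_right n hc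
              omega
            · simp
          rw [h3]
          exact h4
        · rw [if_neg hd]
          have h4 := (lf_homog i j α).mul (homog_pow i j (d + n * c - 1))
          have h3 : (d + k * c) * (if j = i then 1 else 0) =
              (if j = i then 1 else 0) + (d + n * c - 1) * (if j = i then 1 else 0) := by
            split_ifs
            · rw [h2]; omega
            · omega
          rw [h3]
          exact h4
      · rw [if_neg h2]
        exact MvPolynomial.isWeightedHomogeneous_zero _ _ _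

theorem Gx_MHP {r : ℕ} {n : ℕ} (hn : 2 ≤ n) (j : Fin r) (α β : ℂ) (c d : Fin r → ℕ)
    (hcd : 1 ≤ c j + d j) : MHP (Gx n j α β c d) c d := by
  classical
  intro k i
  unfold Gx
  have h1 : (∏ i' ∈ univ.erase j, MvPolynomial.X (i', 2) ^ (d i' + (k : ℕ) * c i') :
      MvPolynomial (Fin r × Fin 3) ℂ).IsWeightedHomogeneous (wt i)
        (∑ i' ∈ univ.erase j, (d i' + (k : ℕ) * c i') * (if i' = i then 1 else 0)) :=
    MvPolynomial.IsWeightedHomogeneous.prod _ _ _ (fun i' _ => homog_pow i i' _)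
  have h2 := h1.mul (Gj_homog hn i j α β hcd k)
  have h3 : d i + (k : ℕ) * c i = (∑ i' ∈ univ.erase j, (d i' + (k : ℕ) * c i') *
      (if i' = i then 1 else 0)) + (d j + (k : ℕ) * c j) * (if j = i then 1 else 0) := by
    rw [Finset.sum_erase_add univ
      (fun i' => (d i' + (k : ℕ) * c i') * (if i' = i then 1 else 0)) (mem_univ j)]
    simp
  rw [h3]
  exact h2

theorem Gx_eval {r : ℕ} {n : ℕ} (hn : 2 ≤ n) (j : Fin r) (α β : ℂ) (c d : Fin r → ℕ) {T : Type}
    [CommRing T] (κ : ℂ →+* T) (U : Fin r × Fin 3 → T) (hU : ∀ i, U (i, 2) = 1) (k : Fin n) :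
    MvPolynomial.eval₂ κ U (mon (Gx n j α β c d) k) =
      cy n (U (j, 0) - κ β) (U (j, 0) - κ α) k := by
  classical
  have hlf : ∀ γ : ℂ, MvPolynomial.eval₂ κ U (lf j γ) = U (j, 0) - κ γ := by
    intro γ
    unfold lf
    simp [hU]
  have hG : ∀ k : Fin (n + 1), MvPolynomial.eval₂ κ U (Gx n j α β c d k) =
      if (k : ℕ) = 0 then (if d j = 0 then 1 else U (j, 0) - κ β)
      else if (k : ℕ) = 1 then -(U (j, 0) - κ β)
      else if (k : ℕ) = n then (if d j = 0 then (U (j, 0) - κ β) ^ (n - 1) * (U (j, 0) - κ α)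
        else U (j, 0) - κ α)
      else 0 := by
    intro k
    unfold Gx
    rw [MvPolynomial.eval₂_mul, MvPolynomial.eval₂_prod, Finset.prod_eq_one, one_mul]
    · unfold Gj
      split_ifs <;> simp [hU, hlf]
    · intro i _
      simp [hU]
  have hv : ((k.succ : Fin (n + 1)) : ℕ) = (k : ℕ) + 1 := Fin.val_succ k
  have hv0 : ¬ ((k.succ : Fin (n + 1)) : ℕ) = 0 := by omega
  have hG0 : MvPolynomial.eval₂ κ U (Gx n j α β c d 0) =
      if d j = 0 then 1 else U (j, 0) - κ β := by
    rw [hG, if_pos (Fin.val_zero _)]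
  unfold mon cy cx
  rw [MvPolynomial.eval₂_mul, MvPolynomial.eval₂_pow, hG0, hG, if_neg hv0]
  by_cases h0 : (k : ℕ) = 0
  · have hv1 : ((k.succ : Fin (n + 1)) : ℕ) = 1 := by omega
    rw [if_pos h0, if_pos hv1, h0, pow_zero, one_mul]
  · have hv1 : ¬ ((k.succ : Fin (n + 1)) : ℕ) = 1 := by omega
    rw [if_neg h0, if_neg hv1]
    by_cases h1 : (k : ℕ) = n - 1
    · have hv2 : ((k.succ : Fin (n + 1)) : ℕ) = n := by omega
      rw [if_pos hv2, if_pos h1, h1]
      have h2 : ∀ u v : T, u * (u ^ (n - 2) * v) = u ^ (n - 1) * v := by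
        intro u v
        rw [← mul_assoc, ← pow_succ']
        congr 2
        omega
      rw [h2]
      by_cases hd : d j = 0
      · rw [if_pos hd, if_pos hd, one_pow, one_mul]
      · rw [if_neg hd, if_neg hd]
    · have hv2 : ¬ ((k.succ : Fin (n + 1)) : ℕ) = n := by omega
      rw [if_neg hv2, if_neg h1, mul_zero]

theorem Gx_one {r : ℕ} (n : ℕ) (j : Fin r) (α β : ℂ) (c d : Fin r → ℕ) (hd : d = 0) :
    Gx n j α β c d 0 = 1 := by
  subst hd
  unfold Gx Gj
  simp

/-- a point of the hypersurface is a root -/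
theorem root_of_pt {K : Type} [Field K] {n : ℕ} (hn : 2 ≤ n) (g : Fin (n + 1) → K) (w v : K)
    (hwv : w ≠ 0 ∨ v ≠ 0)
    (h : ∑ k : Fin (n + 1), g k * w ^ (n - (k : ℕ)) * v ^ (k : ℕ) = 0) :
    ∃ x : K, (pol (fun k : Fin n => g 0 ^ (k : ℕ) * g k.succ)).IsRoot x := by
  classical
  rw [Fin.sum_univ_succ] at h
  simp only [Fin.val_zero, Nat.sub_zero, pow_zero, mul_one, Fin.val_succ] at h
  by_cases hv : v = 0
  · have hw : w ≠ 0 := by
      rcases hwv with h1 | h1
      · exact h1
      · exact absurd hv h1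
    have h0 : g 0 = 0 := by
      rw [Finset.sum_eq_zero (fun k _ => by rw [hv, zero_pow (by omega), mul_zero]), add_zero] at h
      exact (mul_eq_zero.1 h).resolve_right (pow_ne_zero _ hw)
    refine ⟨0, ?_⟩
    rw [Polynomial.IsRoot.def, pol, Polynomial.eval_add, Polynomial.eval_pow, Polynomial.eval_X,
      zero_pow (by omega), zero_add, Polynomial.eval_finset_sum]
    refine Finset.sum_eq_zero fun k _ => ?_
    rw [Polynomial.eval_mul, Polynomial.eval_C, Polynomial.eval_pow, Polynomial.eval_X, h0]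
    by_cases hk : (k : ℕ) = 0
    · rw [hk, zero_pow (by omega : n - 1 - 0 ≠ 0), mul_zero]
    · rw [zero_pow hk, zero_mul, zero_mul]
  · refine ⟨g 0 * (w / v), ?_⟩
    rw [Polynomial.IsRoot.def, pol, Polynomial.eval_add, Polynomial.eval_pow, Polynomial.eval_X,
      Polynomial.eval_finset_sum]
    have h1 : (g 0 * (w / v)) ^ n + ∑ k : Fin n, (Polynomial.C (g 0 ^ (k : ℕ) * g k.succ) *
        Polynomial.X ^ (n - 1 - (k : ℕ))).eval (g 0 * (w / v)) =
        g 0 ^ (n - 1) * (v⁻¹) ^ n * (g 0 * w ^ n + ∑ k : Fin n, g k.succ * w ^ (n - ((k : ℕ) + 1)) *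
          v ^ ((k : ℕ) + 1)) := by
      rw [mul_add, Finset.mul_sum]
      congr 1
      · have e1 : g 0 ^ n = g 0 ^ (n - 1) * g 0 := by rw [← pow_succ]; congr 1; omega
        rw [mul_pow, div_eq_mul_inv, mul_pow, e1]
        ring
      · refine Finset.sum_congr rfl fun k _ => ?_
        have hk := k.2
        rw [Polynomial.eval_mul, Polynomial.eval_C, Polynomial.eval_pow, Polynomial.eval_X]
        have e1 : g 0 ^ (n - 1) = g 0 ^ (k : ℕ) * g 0 ^ (n - 1 - (k : ℕ)) := by
          rw [← pow_add]; congr 1; omega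
        have e2 : (v⁻¹) ^ n * v ^ ((k : ℕ) + 1) = (v⁻¹) ^ (n - 1 - (k : ℕ)) := by
          have e3 : (v⁻¹) ^ n = (v⁻¹) ^ (n - 1 - (k : ℕ)) * (v⁻¹) ^ ((k : ℕ) + 1) := by
            rw [← pow_add]; congr 1; omega
          rw [e3, mul_assoc, ← mul_pow, inv_mul_cancel₀ hv, one_pow, mul_one]
        have e4 : n - ((k : ℕ) + 1) = n - 1 - (k : ℕ) := by omega
        rw [mul_pow, div_eq_mul_inv, mul_pow, e1, e4]
        linear_combination - (g 0 ^ (k : ℕ) * g 0 ^ (n - 1 - (k : ℕ)) * g k.succ *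
          w ^ (n - 1 - (k : ℕ))) * e2
    rw [h1, h, mul_zero]

/-- **An example.** -/
theorem existsP_SB {r n : ℕ} (hn : 2 ≤ n) (a b : Fin r → ℤ) (c d : Fin r → ℕ) (j : Fin r)
    (hcd : 1 ≤ c j + d j) : ∃ G : Fin (n + 1) → MvPolynomial (Fin r × Fin 3) ℂ,
      MHP G c d ∧ (d = 0 → G 0 = 1) ∧ SB a b (mon G) j := by
  classical
  obtain ⟨α, β, x₀, Y, hY, hfull, hord⟩ := exists_ey hn (a j : ℂ) (b j : ℂ)
  choose y hy using fun i => IsAlgClosed.exists_pow_nat_eq ((b i : ℂ)) (n := 2) (by norm_num)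
  refine ⟨Gx n j α β c d, Gx_MHP hn j α β c d hcd, Gx_one n j α β c d, fun i => ![0, y i, 1],
    ![PowerSeries.C x₀ + PowerSeries.X, Y, 1], 1, ?_, ?_, ?_, ?_, ?_, odd_one⟩
  · intro i _
    refine ⟨rfl, ?_⟩
    show y i ^ 2 = 0 ^ 3 + (a i : ℂ) * 0 + b i
    rw [hy]
    ring
  · convert hfull using 2 with k
    rw [Gx_eval hn]
    · have h0 : gen j (a j : ℂ) (b j : ℂ) (fun i => ![0, y i, 1]) j 0 = qx ℂ _ _ := by
        unfold gen
        rw [if_pos rfl]
        rfl
      have h1 : ∀ u : ℂ, qx ℂ (a j : ℂ) (b j : ℂ) - qc ℂ _ _ u =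
          (⟨Polynomial.X - Polynomial.C u, 0⟩ : QA ℂ (a j : ℂ) (b j : ℂ)) := by
        intro u
        rw [qc_apply]
        unfold qx
        ext1
        · simp
        · simp
      show cy n (gen j (a j : ℂ) (b j : ℂ) (fun i => ![0, y i, 1]) j 0 - _) (gen j (a j : ℂ) (b j : ℂ) (fun i => ![0, y i, 1]) j 0 - _) k = _
      rw [h0, h1, h1]
    · intro i
      show gen j (a j : ℂ) (b j : ℂ) (fun i => ![0, y i, 1]) i 2 = 1
      unfold gen
      split_ifs
      · rfl
      · exact map_one _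
  · intro h
    have h1 := congrFun h 2
    exact one_ne_zero h1
  · show Y ^ 2 * 1 = (PowerSeries.C x₀ + PowerSeries.X) ^ 3 +
      (a j : PowerSeries ℂ) * (PowerSeries.C x₀ + PowerSeries.X) * 1 ^ 2 +
        (b j : PowerSeries ℂ) * 1 ^ 3
    rw [hY, map_intCast, map_intCast]
    ring
  · rw [← hord.trans Nat.cast_one.symm]
    congr 2
    funext k
    rw [Gx_eval hn]
    · simp
    · intro i
      show (if i = j then _ else _) = _
      split_ifs
      · rfl
      · simp

end Pool.Agent.K9h5.W
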